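import Mathlib

set_option autoImplicit false

open Polynomial

/-! Definitions for MP_8e1908_an: the distance `d(a,P)` and the quantity `δ_n(a)`. -/

namespace Pool.Agent.Lib.MP_8e1908_an

/-- `critDist a P` is `d(a,P)`: the distance from `a` to the nearest critical point of `P`. -/
noncomputable def critDist (a : ℂ) (P : ℂ[X]) : ℝ :=
  sInf ((fun ζ : ℂ => ‖ζ - a‖) '' {ζ : ℂ | (derivative P).eval ζ = 0})

/-- `delta n a` is `δ_n(a)`: the supremum of `d(a,P)` over the polynomials `P` of degree `n` with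
`P(a) = 0` and all zeros in the closed unit disc. -/
noncomputable def delta (n : ℕ) (a : ℝ) : ℝ :=
  sSup {d : ℝ | ∃ P : ℂ[X], P.natDegree = n ∧ P.eval (a : ℂ) = 0 ∧
    (∀ z : ℂ, P.eval z = 0 → ‖z‖ ≤ 1) ∧ d = critDist (a : ℂ) P}

end Pool.Agent.Lib.MP_8e1908_an
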