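import Mathlib
import Pool.Agent.Lib.MP_8e1908_an.Defs

set_option autoImplicit false

open Polynomial

namespace Pool.Agent.Lib.MP_8e1908_an

/-!
# The extremal critical-point distance at a fixed zero does not tend to one

Sketch. Let `P` be monic of degree `n`, `P(a) = 0`, with all zeros `λ` in the closed unit disc and
all critical points `ζ` at distance at least `1 - ε` from `a`. A Walsh coincidence argument (proved
below for linear functionals and a disc) gives the lower bound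
`|P(z)| ≥ |a - z| |P'(a)| (1 - θ^n) / (2 n)` whenever `|z - ζ| ≤ θ |a - ζ|` for all `ζ`, `θ < 1`.
It applies at small real points `c0 < c < 2 c` and near `2 c`. Together with the trivial upper bound
`|P(2 c)| ≤ |P'(a)|` and the comparison of `P` and `P'` at the exterior points `1/c`, `1/(2 c)`,
a fixed linear combination of logarithms gives, with `β > 0` independent of `n`,
`(n - 1) β - O(log n) ≤ n N c0` where `N c0 ≤ β / 2`: impossible for large `n`.
-/

/-- auxiliary quadratic form for a root outside of the disc -/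
theorem psi_out (b z ρ : ℂ) (r : ℝ) (hr : 0 ≤ r) (hz : ‖z - b‖ ≤ r) (hρ : r < ‖ρ - b‖) :
    (r ^ 2 - Complex.normSq (z - b)) * Complex.normSq (1 / (z - ρ)) +
      2 * ((z - b) * (1 / (z - ρ))).re < 1 := by
  have hne : z - ρ ≠ 0 := by
    intro h
    have : z = ρ := by linear_combination h
    rw [this] at hz
    linarith
  have hpos : 0 < Complex.normSq (z - ρ) := Complex.normSq_pos.mpr hne
  have h1 : r ^ 2 < Complex.normSq (ρ - b) := by
    rw [Complex.normSq_eq_norm_sq]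
    have := norm_nonneg (ρ - b)
    nlinarith
  have e1 : Complex.normSq (1 / (z - ρ)) = 1 / Complex.normSq (z - ρ) := by
    rw [map_div₀, map_one]
  have e2 : ((z - b) * (1 / (z - ρ))).re =
      ((z - b).re * (z - ρ).re + (z - b).im * (z - ρ).im) / Complex.normSq (z - ρ) := by
    rw [mul_one_div, Complex.div_re]
    field_simp
  rw [e1, e2]
  have e3 : (r ^ 2 - Complex.normSq (z - b)) * (1 / Complex.normSq (z - ρ)) +
      2 * (((z - b).re * (z - ρ).re + (z - b).im * (z - ρ).im) / Complex.normSq (z - ρ)) =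
      ((r ^ 2 - Complex.normSq (z - b)) +
      2 * ((z - b).re * (z - ρ).re + (z - b).im * (z - ρ).im)) / Complex.normSq (z - ρ) := by
    field_simp
  rw [e3, div_lt_one hpos]
  rw [Complex.normSq_apply] at h1
  rw [Complex.normSq_apply, Complex.normSq_apply]
  simp only [Complex.sub_re, Complex.sub_im] at *
  nlinarith

theorem psi_in (b z s : ℂ) (r : ℝ) (hs : ‖s - b‖ ≤ r) (hne : z ≠ s) :
    1 ≤ (r ^ 2 - Complex.normSq (z - b)) * Complex.normSq (1 / (z - s)) +
      2 * ((z - b) * (1 / (z - s))).re := by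
  have hne' : z - s ≠ 0 := sub_ne_zero.mpr hne
  have hpos : 0 < Complex.normSq (z - s) := Complex.normSq_pos.mpr hne'
  have h1 : Complex.normSq (s - b) ≤ r ^ 2 := by
    rw [Complex.normSq_eq_norm_sq]
    have := norm_nonneg (s - b)
    nlinarith
  have e1 : Complex.normSq (1 / (z - s)) = 1 / Complex.normSq (z - s) := by
    rw [map_div₀, map_one]
  have e2 : ((z - b) * (1 / (z - s))).re =
      ((z - b).re * (z - s).re + (z - b).im * (z - s).im) / Complex.normSq (z - s) := by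
    rw [mul_one_div, Complex.div_re]
    field_simp
  rw [e1, e2]
  have e3 : (r ^ 2 - Complex.normSq (z - b)) * (1 / Complex.normSq (z - s)) +
      2 * (((z - b).re * (z - s).re + (z - b).im * (z - s).im) / Complex.normSq (z - s)) =
      ((r ^ 2 - Complex.normSq (z - b)) +
      2 * ((z - b).re * (z - s).re + (z - b).im * (z - s).im)) / Complex.normSq (z - s) := by
    field_simp
  rw [e3, one_le_div hpos]
  rw [Complex.normSq_apply] at h1
  rw [Complex.normSq_apply, Complex.normSq_apply]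
  simp only [Complex.sub_re, Complex.sub_im] at *
  nlinarith

/-- for a polynomial of degree at most m without zeros in the disc -/
theorem psi_poly (b z : ℂ) (r : ℝ) (hr : 0 ≤ r) (hz : ‖z - b‖ ≤ r) (m : ℕ) (hm : 1 ≤ m) :
    ∀ f : ℂ[X], f.natDegree ≤ m → (∀ w, ‖w - b‖ ≤ r → f.eval w ≠ 0) →
    (r ^ 2 - Complex.normSq (z - b)) * Complex.normSq ((derivative f).eval z / f.eval z) +
      2 * m * ((z - b) * ((derivative f).eval z / f.eval z)).re < (m : ℝ) ^ 2 := by
  have hk : 0 ≤ r ^ 2 - Complex.normSq (z - b) := by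
    rw [Complex.normSq_eq_norm_sq]
    have := norm_nonneg (z - b)
    nlinarith
  induction m, hm using Nat.le_induction with
  | base =>
    intro f hf hz0
    rcases Nat.lt_or_ge f.natDegree 1 with h | h
    · obtain ⟨c, hc⟩ := natDegree_eq_zero.mp (Nat.lt_one_iff.mp h)
      rw [← hc]
      simp
    · have hdeg : f.natDegree = 1 := le_antisymm hf h
      have hf0 : f ≠ 0 := by
        rintro rfl
        simp at hdeg
      have hd : f.degree ≠ 0 := by
        rw [degree_eq_natDegree hf0, hdeg]; norm_num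
      obtain ⟨ρ, hρ⟩ := IsAlgClosed.exists_root f hd
      have hρ' : r < ‖ρ - b‖ := by
        by_contra hcon
        exact hz0 ρ (not_lt.mp hcon) hρ
      obtain ⟨g, hg⟩ := dvd_iff_isRoot.mpr hρ
      have hg0 : g ≠ 0 := by
        rintro rfl
        rw [mul_zero] at hg
        exact hf0 hg
      have hgdeg : g.natDegree = 0 := by
        have := congrArg natDegree hg
        rw [natDegree_mul (X_sub_C_ne_zero _) hg0, natDegree_X_sub_C, hdeg] at this
        omega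
      obtain ⟨c, rfl⟩ := natDegree_eq_zero.mp hgdeg
      have hc : c ≠ 0 := by
        rintro rfl
        simp at hg0
      have h2 := psi_out b z ρ r hr hz hρ'
      have e : (derivative f).eval z / f.eval z = 1 / (z - ρ) := by
        rw [hg]
        simp only [derivative_mul, derivative_sub, derivative_X, derivative_C, sub_zero, one_mul,
          mul_zero, add_zero, eval_C, eval_mul, eval_sub, eval_X]
        have : z - ρ ≠ 0 := by
          intro h
          have h3 := hz0 z hz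
          rw [hg] at h3
          simp [h] at h3
        field_simp
      rw [e]
      simpa using h2
  | succ m hm ih =>
    intro f hf hz0
    rcases Nat.lt_or_ge f.natDegree 1 with h | h
    · obtain ⟨c, hc⟩ := natDegree_eq_zero.mp (Nat.lt_one_iff.mp h)
      rw [← hc]
      simp
      positivity
    · have hf0 : f ≠ 0 := by
        rintro rfl
        simp at h
      have hd : f.degree ≠ 0 := by
        rw [degree_eq_natDegree hf0]
        intro h'
        have : f.natDegree = 0 := by exact_mod_cast h'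
        omega
      obtain ⟨ρ, hρ⟩ := IsAlgClosed.exists_root f hd
      have hρ' : r < ‖ρ - b‖ := by
        by_contra hcon
        exact hz0 ρ (not_lt.mp hcon) hρ
      obtain ⟨g, hg⟩ := dvd_iff_isRoot.mpr hρ
      have hg0 : g ≠ 0 := by
        rintro rfl
        rw [mul_zero] at hg
        exact hf0 hg
      have hgdeg : g.natDegree ≤ m := by
        have := congrArg natDegree hg
        rw [natDegree_mul (X_sub_C_ne_zero _) hg0, natDegree_X_sub_C] at this
        omega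
      have hgz : ∀ w, ‖w - b‖ ≤ r → g.eval w ≠ 0 := by
        intro w hw hgw
        apply hz0 w hw
        rw [hg, eval_mul, hgw, mul_zero]
      have h1 := ih g hgdeg hgz
      have h2 := psi_out b z ρ r hr hz hρ'
      have hzρ : z - ρ ≠ 0 := by
        intro h
        have h3 := hz0 z hz
        rw [hg] at h3
        simp [h] at h3
      have e : (derivative f).eval z / f.eval z =
          1 / (z - ρ) + (derivative g).eval z / g.eval z := by
        rw [hg]
        simp only [derivative_mul, derivative_sub, derivative_X, derivative_C, sub_zero, one_mul,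
          eval_add, eval_C, eval_mul, eval_sub, eval_X]
        have := hgz z hz
        field_simp
      rw [e]
      set v := 1 / (z - ρ) with hv
      set u := (derivative g).eval z / g.eval z with hu
      set k := r ^ 2 - Complex.normSq (z - b) with hkdef
      have hm' : (1 : ℝ) ≤ m := by exact_mod_cast hm
      have hnorm : (m : ℝ) * Complex.normSq (v + u) ≤
          (m + 1) * (m * Complex.normSq v) + (m + 1) * Complex.normSq u := by
        rw [Complex.normSq_apply, Complex.normSq_apply, Complex.normSq_apply]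
        simp only [Complex.add_re, Complex.add_im]
        nlinarith [sq_nonneg (m * v.re - u.re), sq_nonneg (m * v.im - u.im)]
      have hk2 := mul_le_mul_of_nonneg_left hnorm hk
      rw [mul_add (z - b), Complex.add_re]
      push_cast
      have hm0 : (0 : ℝ) < m := by linarith
      have h3 : (m : ℝ) * (k * Complex.normSq (v + u) +
          2 * ((m : ℝ) + 1) * (((z - b) * v).re + ((z - b) * u).re)) < m * ((m : ℝ) + 1) ^ 2 := by
        have a1 := mul_lt_mul_of_pos_left h2 (show (0 : ℝ) < (m + 1) * m by positivity)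
        have a2 := mul_lt_mul_of_pos_left h1 (show (0 : ℝ) < (m + 1) by positivity)
        nlinarith
      exact lt_of_mul_lt_mul_left h3 hm0.le

/-- Laguerre's theorem for a closed disc -/
theorem laguerre_disc (b : ℂ) (r : ℝ) (hr : 0 ≤ r) (m : ℕ) (hm : 1 ≤ m) (f : ℂ[X])
    (hf : f.natDegree ≤ m) (h0 : ∀ w, ‖w - b‖ ≤ r → f.eval w ≠ 0) (s z : ℂ)
    (hs : ‖s - b‖ ≤ r) (hz : ‖z - b‖ ≤ r) :
    (m : ℂ) * f.eval z + (s - z) * (derivative f).eval z ≠ 0 := by
  intro h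
  by_cases hzs : z = s
  · subst hzs
    simp only [sub_self, zero_mul, add_zero] at h
    rcases mul_eq_zero.mp h with h1 | h1
    · have : m = 0 := by exact_mod_cast h1
      omega
    · exact h0 z hz h1
  · have h1 := psi_poly b z r hr hz m hm f hf h0
    have h2 := psi_in b z s r hs hzs
    have hzs' : z - s ≠ 0 := sub_ne_zero.mpr hzs
    have hf0 := h0 z hz
    have e : (derivative f).eval z / f.eval z = (m : ℝ) * (1 / (z - s)) := by
      field_simp
      push_cast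
      linear_combination -h
    rw [e] at h1
    have e1 : Complex.normSq (((m : ℝ) : ℂ) * (1 / (z - s))) =
        (m : ℝ) ^ 2 * Complex.normSq (1 / (z - s)) := by
      rw [Complex.normSq_mul, Complex.normSq_ofReal]; ring
    have e2 : ((z - b) * (((m : ℝ) : ℂ) * (1 / (z - s)))).re =
        (m : ℝ) * ((z - b) * (1 / (z - s))).re := by
      rw [show (z - b) * (((m : ℝ) : ℂ) * (1 / (z - s))) =
        ((m : ℝ) : ℂ) * ((z - b) * (1 / (z - s))) by ring, Complex.re_ofReal_mul]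
    rw [e1, e2] at h1
    have h3 := mul_le_mul_of_nonneg_left h2 (show (0 : ℝ) ≤ (m : ℝ) ^ 2 by positivity)
    nlinarith

noncomputable def Fpoly (L : ℂ[X] →ₗ[ℂ] ℂ) (R : ℂ[X]) (k : ℕ) : ℂ[X] :=
  ∑ i ∈ Finset.range (k + 1), C ((k.choose i : ℂ) * (-1) ^ i * L (R * X ^ (k - i))) * X ^ i

theorem Fpoly_coeff (L : ℂ[X] →ₗ[ℂ] ℂ) (R : ℂ[X]) (k i : ℕ) :
    (Fpoly L R k).coeff i = (k.choose i : ℂ) * (-1) ^ i * L (R * X ^ (k - i)) := by
  unfold Fpoly
  rw [finsetSum_coeff]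
  simp only [coeff_C_mul, coeff_X_pow]
  by_cases h : i ≤ k
  · rw [Finset.sum_eq_single i]
    · simp
    · intro j _ hj
      rw [if_neg (fun h => hj h.symm), mul_zero]
    · intro hi
      exfalso
      exact hi (Finset.mem_range.mpr (by omega))
  · rw [Nat.choose_eq_zero_of_lt (by omega)]
    rw [Finset.sum_eq_zero]
    · simp
    · intro j hj
      rw [Finset.mem_range] at hj
      rw [if_neg (by omega), mul_zero]

theorem Fpoly_eval (L : ℂ[X] →ₗ[ℂ] ℂ) (R : ℂ[X]) (k : ℕ) (s : ℂ) :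
    (Fpoly L R k).eval s = L (R * (X - C s) ^ k) := by
  have e : (X - C s) ^ k = ∑ i ∈ Finset.range (k + 1),
      C ((-s) ^ i * (k.choose i : ℂ)) * X ^ (k - i) := by
    have : (X - C s : ℂ[X]) = C (-s) + X := by rw [C_neg]; ring
    rw [this, add_pow]
    apply Finset.sum_congr rfl
    intro i _
    rw [C_mul, C_pow]
    simp only [map_natCast]
    ring
  rw [e, Finset.mul_sum, map_sum, Fpoly, eval_finsetSum]
  apply Finset.sum_congr rfl
  intro i _
  simp only [eval_mul, eval_C, eval_pow, eval_X]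
  rw [show R * (C ((-s) ^ i * (k.choose i : ℂ)) * X ^ (k - i)) =
    ((-s) ^ i * (k.choose i : ℂ)) • (R * X ^ (k - i)) by rw [smul_eq_C_mul]; ring]
  rw [map_smul, smul_eq_mul, neg_pow s i]
  ring

theorem Fpoly_natDegree (L : ℂ[X] →ₗ[ℂ] ℂ) (R : ℂ[X]) (k : ℕ) : (Fpoly L R k).natDegree ≤ k := by
  rw [natDegree_le_iff_coeff_eq_zero]
  intro N hN
  rw [Fpoly_coeff, Nat.choose_eq_zero_of_lt hN]
  simp

theorem Fpoly_derivative (L : ℂ[X] →ₗ[ℂ] ℂ) (R : ℂ[X]) (k : ℕ) :
    derivative (Fpoly L R (k + 1)) = C (-((k : ℂ) + 1)) * Fpoly L R k := by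
  ext i
  rw [coeff_derivative, Fpoly_coeff, coeff_C_mul, Fpoly_coeff]
  have h : ((k + 1).choose (i + 1) : ℂ) * ((i : ℂ) + 1) = ((k : ℂ) + 1) * (k.choose i : ℂ) := by
    exact_mod_cast (Nat.add_one_mul_choose_eq k i).symm
  rw [Nat.add_sub_add_right, pow_succ]
  linear_combination (-1) ^ i * (-1) * L (R * X ^ (k - i)) * h

theorem gws (b : ℂ) (r : ℝ) (hr : 0 ≤ r) (L : ℂ[X] →ₗ[ℂ] ℂ) (k : ℕ) : ∀ R : ℂ[X],
    (∀ s, ‖s - b‖ ≤ r → L (R * (X - C s) ^ k) ≠ 0) → ∀ l : Multiset ℂ, Multiset.card l = k →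
    (∀ s ∈ l, ‖s - b‖ ≤ r) → L (R * (l.map (fun s => X - C s)).prod) ≠ 0 := by
  induction k with
  | zero =>
    intro R hR l hl _
    rw [Multiset.card_eq_zero.mp hl]
    simpa using hR b (by simpa using hr)
  | succ k ih =>
    intro R hR l hl hls
    obtain ⟨s', hs'⟩ : ∃ s', s' ∈ l := by
      apply Multiset.card_pos_iff_exists_mem.mp
      omega
    obtain ⟨l', rfl⟩ := Multiset.exists_cons_of_mem hs'
    rw [Multiset.map_cons, Multiset.prod_cons, ← mul_assoc]
    apply ih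
    · intro s hs
      have h1 := laguerre_disc b r hr (k + 1) (by omega) (Fpoly L R (k + 1))
        (Fpoly_natDegree L R (k + 1))
        (by
          intro w hw
          rw [Fpoly_eval]
          exact hR w hw) s' s (hls s' hs') hs
      rw [Fpoly_derivative, eval_mul, eval_C, Fpoly_eval, Fpoly_eval] at h1
      intro h
      apply h1
      have e : L (R * (X - C s) ^ (k + 1)) - (s' - s) * L (R * (X - C s) ^ k) =
          L (R * (X - C s') * (X - C s) ^ k) := by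
        rw [← smul_eq_mul (s' - s), ← map_smul, ← map_sub]
        congr 1
        rw [smul_eq_C_mul, C_sub]
        ring
      push_cast
      rw [h] at e
      linear_combination ((k : ℂ) + 1) * e
    · simpa using hl
    · intro s hs
      exact hls s (Multiset.mem_cons_of_mem hs)

/-- integral from c to a as a linear functional -/
noncomputable def J (a c : ℂ) : ℂ[X] →ₗ[ℂ] ℂ :=
  Polynomial.lsum (fun i => ((a ^ (i + 1) - c ^ (i + 1)) / ((i : ℂ) + 1)) • LinearMap.id)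

theorem J_monomial (a c : ℂ) (i : ℕ) (x : ℂ) :
    J a c (monomial i x) = (a ^ (i + 1) - c ^ (i + 1)) / ((i : ℂ) + 1) * x := by
  unfold J
  rw [lsum_apply, sum_monomial_index]
  · simp
  · simp

theorem J_derivative (a c : ℂ) (P : ℂ[X]) : J a c (derivative P) = P.eval a - P.eval c := by
  induction P using Polynomial.induction_on' with
  | add p q hp hq => rw [derivative_add, map_add, hp, hq, eval_add, eval_add]; ring
  | monomial n x =>
    rw [derivative_monomial, J_monomial, eval_monomial, eval_monomial]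
    rcases n with _ | n
    · simp
    · simp only [Nat.add_sub_cancel, Nat.cast_add, Nat.cast_one]
      have : (n : ℂ) + 1 ≠ 0 := by exact_mod_cast Nat.succ_ne_zero n
      field_simp

theorem J_pow (a c s : ℂ) (m : ℕ) : J a c ((X - C s) ^ m) =
    ((a - s) ^ (m + 1) - (c - s) ^ (m + 1)) / ((m : ℂ) + 1) := by
  have h := J_derivative a c ((X - C s) ^ (m + 1))
  have e : derivative ((X - C s) ^ (m + 1)) = ((m : ℂ) + 1) • (X - C s) ^ m := by
    rw [derivative_X_sub_C_pow, smul_eq_C_mul]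
    simp
  rw [e, map_smul, smul_eq_mul] at h
  simp only [eval_pow, eval_sub, eval_X, eval_C] at h
  have : (m : ℂ) + 1 ≠ 0 := by exact_mod_cast Nat.succ_ne_zero m
  field_simp
  linear_combination h

theorem apollonius (a c s : ℂ) (θ : ℝ) (h0 : 0 ≤ θ) (h1 : θ < 1) :
    ‖s - (c - θ ^ 2 * a) / (1 - θ ^ 2)‖ ≤ θ * ‖a - c‖ / (1 - θ ^ 2) ↔ ‖c - s‖ ≤ θ * ‖a - s‖ := by
  have hpos : 0 < 1 - θ ^ 2 := by nlinarith
  have hne : (1 - (θ : ℂ) ^ 2) ≠ 0 := by
    have : ((1 - θ ^ 2 : ℝ) : ℂ) ≠ 0 := by exact_mod_cast hpos.ne'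
    simpa using this
  have e1 : s - (c - θ ^ 2 * a) / (1 - θ ^ 2) = (((1 - θ ^ 2) * s - c + θ ^ 2 * a)) / (1 - θ ^ 2) := by
    field_simp
    ring
  have e2 : ‖(1 - (θ : ℂ) ^ 2)‖ = 1 - θ ^ 2 := by
    have : (1 - (θ : ℂ) ^ 2) = ((1 - θ ^ 2 : ℝ) : ℂ) := by push_cast; ring
    rw [this, Complex.norm_real, Real.norm_eq_abs, abs_of_pos hpos]
  rw [e1, norm_div, e2, div_le_div_iff_of_pos_right hpos]
  rw [← abs_of_nonneg (norm_nonneg _), ← abs_of_nonneg (mul_nonneg h0 (norm_nonneg (a - c))),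
    ← sq_le_sq, mul_pow, ← abs_of_nonneg (norm_nonneg (c - s)),
    ← abs_of_nonneg (mul_nonneg h0 (norm_nonneg (a - s))), ← sq_le_sq, mul_pow]
  rw [← Complex.normSq_eq_norm_sq, ← Complex.normSq_eq_norm_sq, ← Complex.normSq_eq_norm_sq,
    ← Complex.normSq_eq_norm_sq]
  have e3 : (1 - (θ : ℂ) ^ 2) * s - c + θ ^ 2 * a =
      ((1 - θ ^ 2 : ℝ) : ℂ) * s - c + ((θ ^ 2 : ℝ) : ℂ) * a := by push_cast; ring
  rw [e3]
  simp only [Complex.normSq_apply, Complex.add_re, Complex.add_im, Complex.sub_re, Complex.sub_im,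
    Complex.re_ofReal_mul, Complex.im_ofReal_mul]
  constructor
  · intro h
    have : (1 - θ ^ 2) * ((c.re - s.re) * (c.re - s.re) + (c.im - s.im) * (c.im - s.im)) ≤
        (1 - θ ^ 2) * (θ ^ 2 * ((a.re - s.re) * (a.re - s.re) + (a.im - s.im) * (a.im - s.im))) := by
      linarith
    exact le_of_mul_le_mul_left this hpos
  · intro h
    have := mul_le_mul_of_nonneg_left h hpos.le
    linarith

/-- Lemma A -/
theorem lower_bound (P : ℂ[X]) (a c : ℂ) (θ : ℝ) (h0 : 0 ≤ θ) (h1 : θ < 1) (hac : a ≠ c)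
    (hP : P.eval a = 0) (hdeg : 1 ≤ P.natDegree)
    (hcrit : ∀ ζ, (derivative P).eval ζ = 0 → ‖c - ζ‖ ≤ θ * ‖a - ζ‖) :
    ‖a - c‖ * ‖(derivative P).eval a‖ * (1 - θ ^ P.natDegree) / (2 * P.natDegree) ≤ ‖P.eval c‖ := by
  by_contra hcon
  push Not at hcon
  set n := P.natDegree with hn
  have hn0 : (0 : ℝ) < n := by exact_mod_cast hdeg
  have hda : (derivative P).eval a ≠ 0 := by
    intro h
    rw [h] at hcon
    simp at hcon
    linarith [norm_nonneg (P.eval c)]
  have hac' : a - c ≠ 0 := sub_ne_zero.mpr hac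
  have hP' : derivative P ≠ 0 := by
    intro h
    rw [h] at hda
    simp at hda
  set w : ℂ := -P.eval c / ((a - c) * (derivative P).eval a) with hw
  let L : ℂ[X] →ₗ[ℂ] ℂ := J a c - (w * (a - c)) • Polynomial.leval a
  have hL : ∀ Q : ℂ[X], L Q = J a c Q - w * (a - c) * Q.eval a := by
    intro Q
    simp [L, Polynomial.leval]
  have hLP : L (derivative P) = 0 := by
    rw [hL, J_derivative, hP, hw]
    field_simp
    ring
  have hprod := C_leadingCoeff_mul_prod_multiset_X_sub_C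
    (IsAlgClosed.card_roots_eq_natDegree (p := derivative P))
  have hLprod : L ((derivative P).roots.map (fun s => X - C s)).prod = 0 := by
    rw [← hprod, ← smul_eq_C_mul, map_smul, smul_eq_mul] at hLP
    rcases mul_eq_zero.mp hLP with h | h
    · exact absurd h (leadingCoeff_ne_zero.mpr hP')
    · exact h
  have hdegd : (derivative P).natDegree = n - 1 := natDegree_derivative P
  have hθn : θ ^ n < 1 := pow_lt_one₀ h0 h1 (by omega)
  have hpos : 0 < 1 - θ ^ 2 := by nlinarith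
  have hg := gws ((c - θ ^ 2 * a) / (1 - θ ^ 2)) (θ * ‖a - c‖ / (1 - θ ^ 2))
    (by positivity) L (n - 1) 1
    (by
      intro s hs
      rw [apollonius a c s θ h0 h1] at hs
      rw [one_mul, hL, J_pow]
      simp only [eval_pow, eval_sub, eval_X, eval_C]
      have hn1 : n - 1 + 1 = n := by omega
      have hn2 : (((n - 1 : ℕ) : ℂ) + 1) = n := by
        exact_mod_cast hn1
      rw [hn1, hn2]
      intro h
      have has : 0 < ‖a - s‖ := by
        rcases (norm_nonneg (a - s)).lt_or_eq with h' | h'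
        · exact h'
        · exfalso
          rw [← h', mul_zero] at hs
          have e1 : c - s = 0 := norm_le_zero_iff.mp hs
          have e2 : a - s = 0 := norm_eq_zero.mp h'.symm
          exact hac' (by linear_combination e2 - e1)
      have hge : ‖a - c‖ ≤ 2 * ‖a - s‖ := by
        have e : a - c = (a - s) - (c - s) := by ring
        rw [e]
        refine (norm_sub_le _ _).trans ?_
        nlinarith
      have h2 : (a - s) ^ n - (c - s) ^ n = n * (w * (a - c) * (a - s) ^ (n - 1)) := by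
        have : (n : ℂ) ≠ 0 := by
          have : (n : ℝ) ≠ 0 := hn0.ne'
          exact_mod_cast this
        field_simp at h
        linear_combination h
      have h3 : ‖a - s‖ ^ n * (1 - θ ^ n) ≤ ‖(a - s) ^ n - (c - s) ^ n‖ := by
        have h4 := norm_sub_norm_le ((a - s) ^ n) ((c - s) ^ n)
        rw [norm_pow, norm_pow] at h4
        have h5 : ‖c - s‖ ^ n ≤ (θ * ‖a - s‖) ^ n := pow_le_pow_left₀ (norm_nonneg _) hs n
        rw [mul_pow] at h5
        linarith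
      rw [h2] at h3
      have hwn : ‖w‖ * ‖a - c‖ * ‖(derivative P).eval a‖ = ‖P.eval c‖ := by
        rw [hw, norm_div, norm_neg, norm_mul]
        have := norm_pos_iff.mpr hac'
        have := norm_pos_iff.mpr hda
        field_simp
      have hDa := norm_pos_iff.mpr hda
      have h6 : ‖w‖ * ‖a - c‖ < ‖a - c‖ * (1 - θ ^ n) / (2 * n) := by
        rw [← hwn] at hcon
        have : ‖w‖ * ‖a - c‖ * ‖(derivative P).eval a‖ <
            ‖a - c‖ * (1 - θ ^ n) / (2 * n) * ‖(derivative P).eval a‖ := by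
          calc _ < _ := hcon
            _ = _ := by ring
        exact lt_of_mul_lt_mul_right this hDa.le
      have h7 : ‖(n : ℂ) * (w * (a - c) * (a - s) ^ (n - 1))‖ =
          n * (‖w‖ * ‖a - c‖) * ‖a - s‖ ^ (n - 1) := by
        rw [norm_mul, norm_mul, norm_mul, norm_pow, Complex.norm_natCast]
        ring
      rw [h7] at h3
      have h8 : ‖a - s‖ ^ n = ‖a - s‖ ^ (n - 1) * ‖a - s‖ := by
        rw [← pow_succ, hn1]
      have hp : 0 < ‖a - s‖ ^ (n - 1) := by positivity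
      have h9 : ‖a - s‖ * (1 - θ ^ n) ≤ n * (‖w‖ * ‖a - c‖) := by
        have : ‖a - s‖ ^ (n - 1) * (‖a - s‖ * (1 - θ ^ n)) ≤
            ‖a - s‖ ^ (n - 1) * (n * (‖w‖ * ‖a - c‖)) := by
          rw [h8] at h3
          linarith
        exact le_of_mul_le_mul_left this hp
      have h10 : n * (‖w‖ * ‖a - c‖) < ‖a - c‖ * (1 - θ ^ n) / 2 := by
        calc n * (‖w‖ * ‖a - c‖) < n * (‖a - c‖ * (1 - θ ^ n) / (2 * n)) := by
              apply mul_lt_mul_of_pos_left h6 hn0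
          _ = ‖a - c‖ * (1 - θ ^ n) / 2 := by field_simp
      have h11 : ‖a - c‖ * (1 - θ ^ n) / 2 ≤ ‖a - s‖ * (1 - θ ^ n) := by
        have : 0 ≤ 1 - θ ^ n := by linarith
        nlinarith
      linarith)
    (derivative P).roots (by rw [IsAlgClosed.card_roots_eq_natDegree, hdegd])
    (by
      intro s hs
      rw [apollonius a c s θ h0 h1]
      exact hcrit s ((mem_roots hP').mp hs))
  rw [one_mul] at hg
  exact hg hLprod

/-- basic geometric inequality -/
theorem geo (a x ε : ℝ) (ha : 0 < a) (hxa : x ≤ a) (hε : 0 ≤ ε) (hε1 : ε ≤ 1)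
    (ζ : ℂ) (h1 : ‖ζ‖ ≤ 1) (h2 : 1 - ε ≤ ‖ζ - a‖) :
    ‖(x : ℂ) - ζ‖ ^ 2 ≤ ‖(a : ℂ) - ζ‖ ^ 2 - (a - x) * (x - 2 * ε / a) := by
  have e1 : ‖(a : ℂ) - ζ‖ = ‖ζ - a‖ := norm_sub_rev _ _
  have hR : 1 - 2 * ε ≤ ‖(a : ℂ) - ζ‖ ^ 2 := by
    rw [e1]
    have : 0 ≤ 1 - ε := by linarith
    nlinarith
  have hq : ‖ζ‖ ^ 2 ≤ 1 := by
    have := norm_nonneg ζ
    nlinarith
  rw [← Complex.normSq_eq_norm_sq] at hR hq ⊢
  rw [← Complex.normSq_eq_norm_sq]
  rw [Complex.normSq_apply] at hR hq ⊢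
  rw [Complex.normSq_apply]
  simp only [Complex.sub_re, Complex.sub_im, Complex.ofReal_re, Complex.ofReal_im, zero_sub] at *
  have h3 : a ^ 2 - 2 * ε ≤ 2 * a * (a - ζ.re) := by nlinarith
  have h4 : a - 2 * ε / a ≤ 2 * (a - ζ.re) := by
    have : a * (a - 2 * ε / a) ≤ a * (2 * (a - ζ.re)) := by
      have e : a * (a - 2 * ε / a) = a ^ 2 - 2 * ε := by field_simp
      rw [e]
      linarith
    exact le_of_mul_le_mul_left this ha
  nlinarith [mul_nonneg (sub_nonneg.mpr hxa) (sub_nonneg.mpr h4)]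

theorem geoB (a x ε : ℝ) (ha : 0 < a) (ha1 : a < 1) (hx : 0 < x) (hxa : x ≤ a / 2) (hε : 0 ≤ ε)
    (hεx : ε ≤ a * x / 4) (ζ : ℂ) (h1 : ‖ζ‖ ≤ 1) (h2 : 1 - ε ≤ ‖ζ - a‖) :
    ‖(x : ℂ) - ζ‖ ≤ (1 - a * x / 32) * ‖(a : ℂ) - ζ‖ := by
  have hε1 : ε ≤ 1 := by nlinarith
  have h := geo a x ε ha (by linarith) hε hε1 ζ h1 h2
  have hR2 : ‖(a : ℂ) - ζ‖ ≤ 2 := by
    refine (norm_sub_le _ _).trans ?_
    rw [Complex.norm_real, Real.norm_eq_abs, abs_of_pos ha]
    linarith
  have hR0 := norm_nonneg ((a : ℂ) - ζ)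
  have h3 : 2 * ε / a ≤ x / 2 := by
    rw [div_le_iff₀ ha]
    nlinarith
  have h4 : a * x / 4 ≤ (a - x) * (x - 2 * ε / a) := by
    have a1 : a / 2 ≤ a - x := by linarith
    have a2 : x / 2 ≤ x - 2 * ε / a := by linarith
    calc a * x / 4 = (a / 2) * (x / 2) := by ring
      _ ≤ (a - x) * (x - 2 * ε / a) := by
        apply mul_le_mul a1 a2 (by positivity) (by linarith)
  have hax : 0 < a * x := by positivity
  have hax1 : a * x ≤ 1 := by nlinarith
  apply le_of_sq_le_sq _ (by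
    apply mul_nonneg _ hR0
    linarith)
  calc ‖(x : ℂ) - ζ‖ ^ 2 ≤ ‖(a : ℂ) - ζ‖ ^ 2 - a * x / 4 := by linarith
    _ ≤ ((1 - a * x / 32) * ‖(a : ℂ) - ζ‖) ^ 2 := by
      have h5 : ‖(a : ℂ) - ζ‖ ^ 2 ≤ 4 := by nlinarith
      nlinarith [mul_nonneg hax.le (sub_nonneg.mpr h5), sq_nonneg (a * x * ‖(a : ℂ) - ζ‖)]

theorem part1 (b c x y q D : ℝ) (hc : 0 < c) (hc1 : c ≤ 1 / 16) (hq0 : 0 ≤ q) (hq : q ≤ 1)
    (hqdef : q = x ^ 2 + y ^ 2) (hx1 : x ≤ 1) (hx2 : -1 ≤ x) (hbc : 0 ≤ b * c) (hbc1 : b * c ≤ c)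
    (hD : D = 1 - 4 * c * x + 4 * c ^ 2 * q) (hD0 : 3 / 4 ≤ D) :
    (1 - b * c) / 2 * (2 * (x ^ 2 - y ^ 2) - 4 * c * q * x + c ^ 2 * q ^ 2) ≤
      (x ^ 2 - y ^ 2 + 16 * c) * D := by
  have hx : |x| ≤ 1 := abs_le.mpr ⟨hx2, hx1⟩
  have hcx : |c * x| ≤ c := by
    rw [abs_mul, abs_of_pos hc]
    nlinarith only [hc, hx, abs_nonneg x]
  have hcx' := abs_le.mp hcx
  have hs1 : x ^ 2 - y ^ 2 ≤ 1 := by nlinarith only [sq_nonneg y, hq, hqdef]
  have hs2 : -1 ≤ x ^ 2 - y ^ 2 := by nlinarith only [sq_nonneg x, hq, hqdef]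
  generalize x ^ 2 - y ^ 2 = s at *
  have hcc : c ^ 2 ≤ c / 16 := by nlinarith only [hc, hc1]
  have hcq1 : c ^ 2 * q ≤ c ^ 2 := by nlinarith only [hq, hq0, sq_nonneg c]
  have hcq2 : 0 ≤ c ^ 2 * q := by positivity
  have hDW1 : D - (1 - b * c) ≤ 6 * c := by
    rw [hD]
    linarith only [hcq1, hcq2, hcc, hcx'.1, hcx'.2, hbc, hbc1, hc]
  have hDW2 : -(6 * c) ≤ D - (1 - b * c) := by
    rw [hD]
    linarith only [hcq1, hcq2, hcc, hcx'.1, hcx'.2, hbc, hbc1, hc]
  have hsD : -(6 * c) ≤ s * (D - (1 - b * c)) := by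
    have : |s * (D - (1 - b * c))| ≤ 1 * (6 * c) := by
      rw [abs_mul]
      exact mul_le_mul (abs_le.mpr ⟨hs2, hs1⟩) (abs_le.mpr ⟨hDW2, hDW1⟩) (abs_nonneg _)
        (by norm_num)
    have := (abs_le.mp this).1
    linarith only [this]
  have hqx : |c * q * x| ≤ c := by
    rw [show c * q * x = q * (c * x) by ring, abs_mul, abs_of_nonneg hq0]
    calc q * |c * x| ≤ 1 * c := mul_le_mul hq hcx (abs_nonneg _) (by norm_num)
      _ = c := one_mul c
  have hqx' := (abs_le.mp hqx)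
  have hcq : c ^ 2 * q ^ 2 ≤ c := by
    have h1 : q ^ 2 ≤ 1 := by nlinarith only [hq, hq0]
    have h2 : c ^ 2 * q ^ 2 ≤ c ^ 2 * 1 := mul_le_mul_of_nonneg_left h1 (sq_nonneg c)
    linarith only [h2, hcc, hc]
  have t1 : (1 - b * c) / 2 * (2 * s - 4 * c * q * x + c ^ 2 * q ^ 2) =
      (1 - b * c) * s + (1 - b * c) / 2 * (- 4 * (c * q * x) + c ^ 2 * q ^ 2) := by ring
  have t2 : (1 - b * c) / 2 * (- 4 * (c * q * x) + c ^ 2 * q ^ 2) ≤ 1 / 2 * (5 * c) := by
    have u1 : - 4 * (c * q * x) + c ^ 2 * q ^ 2 ≤ 5 * c := by linarith only [hcq, hqx'.1]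
    calc (1 - b * c) / 2 * (- 4 * (c * q * x) + c ^ 2 * q ^ 2) ≤ (1 - b * c) / 2 * (5 * c) :=
          mul_le_mul_of_nonneg_left u1 (by linarith only [hbc1, hc1])
      _ ≤ 1 / 2 * (5 * c) := mul_le_mul_of_nonneg_right (by linarith only [hbc])
          (by linarith only [hc])
  rw [t1]
  have t3 : (s + 16 * c) * D = (1 - b * c) * s + s * (D - (1 - b * c)) + 16 * c * D := by ring
  have t4 : 12 * c ≤ 16 * c * D := by nlinarith only [hD0, hc]
  rw [t3]
  linarith only [t2, t4, hsD, hc]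

theorem part2 (b c x q A : ℝ) (hb : 0 ≤ b) (hb1 : b ≤ 1) (hc : 0 < c) (hc1 : c ≤ 1 / 16)
    (hq0 : 0 ≤ q) (hq : q ≤ 1) (hx1 : x ≤ 1) (hx2 : -1 ≤ x)
    (hA : A = 1 - 2 * c * x + c ^ 2 * q) (hA0 : 7 / 8 ≤ A) :
    b * (2 * x - c * q) ≤ (2 * b * x + 6 * c) * A := by
  have hx : |x| ≤ 1 := abs_le.mpr ⟨hx2, hx1⟩
  have hbx : |b * x| ≤ 1 := by
    rw [abs_mul, abs_of_nonneg hb]
    calc b * |x| ≤ 1 * 1 := mul_le_mul hb1 hx (abs_nonneg _) (by norm_num)
      _ = 1 := by norm_num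
  have hcx : |c * x| ≤ c := by
    rw [abs_mul, abs_of_pos hc]
    nlinarith only [hc, hx, abs_nonneg x]
  have hcx' := abs_le.mp hcx
  have hA1 : |A - 1| ≤ 3 * c - c / 2 := by
    rw [hA, abs_le]
    have hcc : c ^ 2 ≤ c / 16 := by nlinarith only [hc, hc1]
    have hcq1 : c ^ 2 * q ≤ c ^ 2 := by nlinarith only [hq, hq0, sq_nonneg c]
    have hcq2 : 0 ≤ c ^ 2 * q := by positivity
    constructor <;> linarith only [hcc, hcq1, hcq2, hcx'.1, hcx'.2, hc]
  have h5 : |b * x * (A - 1)| ≤ 3 * c - c / 2 := by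
    rw [abs_mul]
    calc |b * x| * |A - 1| ≤ 1 * (3 * c - c / 2) :=
          mul_le_mul hbx hA1 (abs_nonneg _) (by norm_num)
      _ = 3 * c - c / 2 := by ring
  have h6 := (abs_le.mp h5).1
  have h7 : 0 ≤ b * (c * q) := by positivity
  have t3 : (2 * b * x + 6 * c) * A = 2 * b * x + 2 * (b * x * (A - 1)) + 6 * c * A := by ring
  have t4 : 21 / 4 * c ≤ 6 * c * A := by nlinarith only [hA0, hc]
  rw [t3]
  linarith only [h6, h7, t4, hc]

/-- upper bound for f -/
theorem f_upper (b c : ℝ) (hb : 0 ≤ b) (hb1 : b ≤ 1) (hc : 0 < c) (hc1 : c ≤ 1 / 16) (x y : ℝ)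
    (hq : x ^ 2 + y ^ 2 ≤ 1) :
    (2 - 4 * b * c) * (1 / 2 * Real.log (1 - 2 * c * x + c ^ 2 * (x ^ 2 + y ^ 2))) -
    (1 - b * c) * (1 / 2 * Real.log (1 - 4 * c * x + 4 * c ^ 2 * (x ^ 2 + y ^ 2))) ≤
    c ^ 2 * (x ^ 2 - y ^ 2 + 2 * b * x + 22 * c) := by
  set q := x ^ 2 + y ^ 2 with hqdef
  have hq0 : 0 ≤ q := by positivity
  have hx1 : x ≤ 1 := by nlinarith only [sq_nonneg y, hq, hqdef]
  have hx2 : -1 ≤ x := by nlinarith only [sq_nonneg y, hq, hqdef]
  set A := 1 - 2 * c * x + c ^ 2 * q with hA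
  set D := 1 - 4 * c * x + 4 * c ^ 2 * q with hD
  have hcx : |c * x| ≤ c := by
    rw [abs_mul, abs_of_pos hc]
    have : |x| ≤ 1 := abs_le.mpr ⟨hx2, hx1⟩
    nlinarith only [hc, this, abs_nonneg x]
  have hcx' := abs_le.mp hcx
  have hcq2 : 0 ≤ c ^ 2 * q := by positivity
  have hA0 : 7 / 8 ≤ A := by
    rw [hA]
    linarith only [hcq2, hcx'.2, hc1]
  have hD0 : 3 / 4 ≤ D := by
    rw [hD]
    linarith only [hcq2, hcx'.2, hc1]
  have hApos : 0 < A := by linarith only [hA0]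
  have hDpos : 0 < D := by linarith only [hD0]
  have hbc : 0 ≤ b * c := by positivity
  have hbc1 : b * c ≤ c := by nlinarith only [hb1, hc]
  have h1 : 2 * Real.log A - Real.log D ≤ A ^ 2 / D - 1 := by
    have : 2 * Real.log A - Real.log D = Real.log (A ^ 2 / D) := by
      rw [Real.log_div (by positivity) (by positivity), Real.log_pow]
      norm_num
    rw [this]
    exact Real.log_le_sub_one_of_pos (by positivity)
  have h2 : - Real.log A ≤ 1 / A - 1 := by
    rw [← Real.log_inv, ← one_div]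
    exact Real.log_le_sub_one_of_pos (by positivity)
  have e1 : (2 - 4 * b * c) * (1 / 2 * Real.log A) - (1 - b * c) * (1 / 2 * Real.log D) =
      (1 - b * c) / 2 * (2 * Real.log A - Real.log D) + b * c * (- Real.log A) := by ring
  rw [e1]
  have h3 : (1 - b * c) / 2 * (A ^ 2 / D - 1) ≤ c ^ 2 * (x ^ 2 - y ^ 2 + 16 * c) := by
    have e2 : A ^ 2 / D - 1 = c ^ 2 * (2 * (x ^ 2 - y ^ 2) - 4 * c * q * x + c ^ 2 * q ^ 2) / D := by
      rw [div_sub_one hDpos.ne']
      congr 1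
      rw [hA, hD, hqdef]
      ring
    rw [e2]
    have e3 : (1 - b * c) / 2 * (c ^ 2 * (2 * (x ^ 2 - y ^ 2) - 4 * c * q * x + c ^ 2 * q ^ 2) / D) =
      c ^ 2 * (((1 - b * c) / 2 * (2 * (x ^ 2 - y ^ 2) - 4 * c * q * x + c ^ 2 * q ^ 2)) / D) := by
      ring
    rw [e3]
    apply mul_le_mul_of_nonneg_left _ (by positivity)
    rw [div_le_iff₀ hDpos]
    exact part1 b c x y q D hc hc1 hq0 hq hqdef hx1 hx2 hbc hbc1 hD hD0
  have h4 : b * c * (1 / A - 1) ≤ c ^ 2 * (2 * b * x + 6 * c) := by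
    have e2 : b * c * (1 / A - 1) = c ^ 2 * ((b * (2 * x - c * q)) / A) := by
      rw [div_sub_one hApos.ne', mul_div_assoc', mul_div_assoc']
      congr 1
      rw [hA]
      ring
    rw [e2]
    apply mul_le_mul_of_nonneg_left _ (by positivity)
    rw [div_le_iff₀ hApos]
    exact part2 b c x q A hb hb1 hc hc1 hq0 hq hx1 hx2 hA hA0
  have h5 := mul_le_mul_of_nonneg_left h1 (show 0 ≤ (1 - b * c) / 2 by linarith only [hbc1, hc1])
  have h6 := mul_le_mul_of_nonneg_left h2 hbc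
  have h7 : c ^ 2 * (x ^ 2 - y ^ 2 + 2 * b * x + 22 * c) =
    c ^ 2 * (x ^ 2 - y ^ 2 + 16 * c) + c ^ 2 * (2 * b * x + 6 * c) := by ring
  rw [h7]
  linarith only [h3, h4, h5, h6]

theorem log_norm_eq (z : ℂ) : Real.log ‖z‖ = 1 / 2 * Real.log (Complex.normSq z) := by
  rw [Complex.normSq_eq_norm_sq, Real.log_pow]
  push_cast
  ring

/-- lower bound for B -/
theorem B_lower (a c N ε : ℝ) (ha : 0 < a) (ha1 : a < 1) (hc : 0 < c) (hc1 : c ≤ 1 / 16)
    (hcb : 22 * c ≤ (1 - a) ^ 2 / 2) (hN : 8 * c ^ 2 ≤ N) (hε : 0 ≤ ε) (hε1 : ε ≤ a ^ 2 / 4)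
    (hε2 : ε * (2 * N + 2 * c ^ 2) ≤ c ^ 2 * (1 - a) ^ 2 / 4)
    (ζ : ℂ) (h1 : ‖ζ‖ ≤ 1) (h2 : 1 - ε ≤ ‖ζ - a‖) :
    c ^ 2 * (1 - a) ^ 2 / 4 ≤ N * Real.log ‖(a : ℂ) - ζ‖ -
      (2 - 4 * (1 - a) * c) * Real.log ‖1 - (c : ℂ) * ζ‖ +
      (1 - (1 - a) * c) * Real.log ‖1 - ((2 * c : ℝ) : ℂ) * ζ‖ := by
  have hq : ζ.re ^ 2 + ζ.im ^ 2 ≤ 1 := by
    have : ‖ζ‖ ^ 2 ≤ 1 := by
      have := norm_nonneg ζ
      nlinarith only [this, h1]
    rw [← Complex.normSq_eq_norm_sq, Complex.normSq_apply] at this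
    nlinarith only [this]
  have hf := f_upper (1 - a) c (by linarith) (by linarith) hc hc1 ζ.re ζ.im hq
  have e1 : Real.log ‖1 - (c : ℂ) * ζ‖ =
      1 / 2 * Real.log (1 - 2 * c * ζ.re + c ^ 2 * (ζ.re ^ 2 + ζ.im ^ 2)) := by
    rw [log_norm_eq]
    congr 2
    rw [Complex.normSq_apply]
    simp only [Complex.sub_re, Complex.sub_im, Complex.re_ofReal_mul, Complex.im_ofReal_mul,
      Complex.one_re, Complex.one_im]
    ring
  have e2 : Real.log ‖1 - ((2 * c : ℝ) : ℂ) * ζ‖ =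
      1 / 2 * Real.log (1 - 4 * c * ζ.re + 4 * c ^ 2 * (ζ.re ^ 2 + ζ.im ^ 2)) := by
    rw [log_norm_eq]
    congr 2
    rw [Complex.normSq_apply]
    simp only [Complex.sub_re, Complex.sub_im, Complex.re_ofReal_mul, Complex.im_ofReal_mul,
      Complex.one_re, Complex.one_im]
    ring
  rw [e1, e2]
  -- R
  set R2 := Complex.normSq ((a : ℂ) - ζ) with hR2
  have hR2' : R2 = (a - ζ.re) ^ 2 + ζ.im ^ 2 := by
    rw [hR2, Complex.normSq_apply]
    simp only [Complex.sub_re, Complex.sub_im, Complex.ofReal_re, Complex.ofReal_im]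
    ring
  have hε3 : ε ≤ 1 / 4 := by nlinarith only [hε1, ha, ha1]
  have hRlow : 1 - 2 * ε ≤ R2 := by
    have e : R2 = ‖ζ - a‖ ^ 2 := by
      rw [hR2, Complex.normSq_eq_norm_sq, norm_sub_rev]
    rw [e]
    have : 0 ≤ 1 - ε := by linarith only [hε3]
    nlinarith only [mul_self_le_mul_self this h2, sq_nonneg ε]
  have hRhigh : R2 ≤ 4 := by
    have e : ‖(a : ℂ) - ζ‖ ≤ 2 := by
      refine (norm_sub_le _ _).trans ?_
      rw [Complex.norm_real, Real.norm_eq_abs, abs_of_pos ha]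
      linarith
    have := norm_nonneg ((a : ℂ) - ζ)
    rw [hR2, Complex.normSq_eq_norm_sq]
    nlinarith only [this, e]
  have hX : 0 ≤ a - ζ.re := by
    have : 0 ≤ 2 * a * (a - ζ.re) := by nlinarith only [hq, hRlow, hR2', hε1]
    have h2a : 0 < 2 * a := by linarith
    exact nonneg_of_mul_nonneg_right this h2a
  have hkey : ζ.re ^ 2 - ζ.im ^ 2 + 2 * (1 - a) * ζ.re ≤ |R2 - 1| - (1 - a) ^ 2 := by
    rcases le_total (a - ζ.re) 1 with h | h
    · have := neg_abs_le (R2 - 1)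
      nlinarith only [this, h, hX, hR2']
    · have := le_abs_self (R2 - 1)
      nlinarith only [this, h, hX, hR2', sq_nonneg ζ.im]
  have hRpos : 0 < R2 := by linarith only [hRlow, hε3]
  have hlog : (1 : ℝ) / 2 * (1 - 1 / R2) ≤ Real.log ‖(a : ℂ) - ζ‖ := by
    rw [log_norm_eq, ← hR2]
    have : 1 - R2⁻¹ ≤ Real.log R2 := Real.one_sub_inv_le_log_of_pos hRpos
    rw [one_div R2]
    linarith only [this]
  have hN0 : 0 ≤ N := le_trans (by positivity) hN
  have hNlog := mul_le_mul_of_nonneg_left hlog hN0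
  have hc2 : 0 ≤ c ^ 2 := by positivity
  have hk2 := mul_le_mul_of_nonneg_left hkey hc2
  rcases le_total 1 R2 with h | h
  · have habs : |R2 - 1| = R2 - 1 := abs_of_nonneg (by linarith)
    rw [habs] at hk2
    have h3 : (R2 - 1) / 8 ≤ 1 / 2 * (1 - 1 / R2) := by
      have e : 1 / 2 * (1 - 1 / R2) = (R2 - 1) / (2 * R2) := by field_simp
      rw [e]
      apply div_le_div_of_nonneg_left (by linarith) (by linarith) (by linarith)
    have h4 := mul_le_mul_of_nonneg_left h3 hN0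
    have h5 := mul_le_mul_of_nonneg_right hN (show 0 ≤ (R2 - 1) / 8 by linarith)
    nlinarith only [hf, hk2, hNlog, h4, h5, hcb, hc2, mul_le_mul_of_nonneg_left hcb hc2]
  · have habs : |R2 - 1| = 1 - R2 := by rw [abs_of_nonpos (by linarith)]; ring
    rw [habs] at hk2
    have h3 : -(2 * ε) ≤ 1 / 2 * (1 - 1 / R2) := by
      have e : 1 / 2 * (1 - 1 / R2) = (R2 - 1) / (2 * R2) := by field_simp
      rw [e, le_div_iff₀ (by linarith)]
      nlinarith only [hRlow, hε, hε3, h]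
    have h4 := mul_le_mul_of_nonneg_left h3 hN0
    have h5 : c ^ 2 * (1 - R2) ≤ c ^ 2 * (2 * ε) := mul_le_mul_of_nonneg_left (by linarith) hc2
    nlinarith only [hf, hk2, hNlog, h4, h5, hcb, hc2, hε2, mul_le_mul_of_nonneg_left hcb hc2]

/-- upper bound for F -/
theorem F_upper (c0 c r N W1 W2 : ℝ) (hc0 : 0 ≤ c0) (hc : 0 < c) (hc1 : c ≤ 1 / 16)
    (hr : 0 < r) (hN : 1 / r ^ 2 ≤ N) (hW1 : 0 ≤ W1) (hW2 : 0 ≤ W2) (hW2' : W2 ≤ 1)
    (w : ℂ) (h1 : ‖w‖ ≤ 1) (h2 : r ≤ ‖((2 * c : ℝ) : ℂ) - w‖) (h3 : (c0 : ℂ) ≠ w) (h4 : (c : ℂ) ≠ w) :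
    N * Real.log ‖(c0 : ℂ) - w‖ + W1 * (Real.log ‖(c : ℂ) - w‖ - Real.log ‖1 - (c : ℂ) * w‖) -
      W2 * (Real.log ‖((2 * c : ℝ) : ℂ) - w‖ - Real.log ‖1 - ((2 * c : ℝ) : ℂ) * w‖) ≤ N * c0 := by
  have hw0 := norm_nonneg w
  have hN0 : 0 ≤ N := le_trans (by positivity) hN
  have hq : w.re ^ 2 + w.im ^ 2 ≤ 1 := by
    have : ‖w‖ ^ 2 ≤ 1 := by nlinarith only [hw0, h1]
    rw [← Complex.normSq_eq_norm_sq, Complex.normSq_apply] at this
    nlinarith only [this]
  -- first term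
  have t1 : Real.log ‖(c0 : ℂ) - w‖ ≤ c0 + ‖w‖ - 1 := by
    have hpos : 0 < ‖(c0 : ℂ) - w‖ := norm_pos_iff.mpr (sub_ne_zero.mpr h3)
    refine (Real.log_le_sub_one_of_pos hpos).trans ?_
    have : ‖(c0 : ℂ) - w‖ ≤ c0 + ‖w‖ := by
      refine (norm_sub_le _ _).trans ?_
      rw [Complex.norm_real, Real.norm_eq_abs, abs_of_nonneg hc0]
    linarith
  -- general identity
  have hid : ∀ x : ℝ, Complex.normSq (1 - (x : ℂ) * w) =
      Complex.normSq ((x : ℂ) - w) + (1 - x ^ 2) * (1 - (w.re ^ 2 + w.im ^ 2)) := by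
    intro x
    rw [Complex.normSq_apply, Complex.normSq_apply]
    simp only [Complex.sub_re, Complex.sub_im, Complex.re_ofReal_mul, Complex.im_ofReal_mul,
      Complex.one_re, Complex.one_im, Complex.ofReal_re, Complex.ofReal_im]
    ring
  have t2 : Real.log ‖(c : ℂ) - w‖ - Real.log ‖1 - (c : ℂ) * w‖ ≤ 0 := by
    rw [log_norm_eq, log_norm_eq, hid c]
    have hpos : 0 < Complex.normSq ((c : ℂ) - w) := Complex.normSq_pos.mpr (sub_ne_zero.mpr h4)
    have : Real.log (Complex.normSq ((c : ℂ) - w)) ≤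
        Real.log (Complex.normSq ((c : ℂ) - w) + (1 - c ^ 2) * (1 - (w.re ^ 2 + w.im ^ 2))) := by
      apply Real.log_le_log hpos
      have : 0 ≤ (1 - c ^ 2) * (1 - (w.re ^ 2 + w.im ^ 2)) := by
        apply mul_nonneg
        · nlinarith only [hc, hc1]
        · linarith
      linarith
    linarith
  have t3 : Real.log ‖1 - ((2 * c : ℝ) : ℂ) * w‖ - Real.log ‖((2 * c : ℝ) : ℂ) - w‖ ≤
      (1 - ‖w‖) / r ^ 2 := by
    have hpos' : 0 < ‖((2 * c : ℝ) : ℂ) - w‖ := lt_of_lt_of_le hr h2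
    have hpos : 0 < Complex.normSq (((2 * c : ℝ) : ℂ) - w) := by
      rw [Complex.normSq_eq_norm_sq]; positivity
    have hge : r ^ 2 ≤ Complex.normSq (((2 * c : ℝ) : ℂ) - w) := by
      rw [Complex.normSq_eq_norm_sq]
      nlinarith only [h2, hr]
    rw [log_norm_eq, log_norm_eq, hid (2 * c)]
    set S := Complex.normSq (((2 * c : ℝ) : ℂ) - w) with hS
    set Q := (1 - (2 * c) ^ 2) * (1 - (w.re ^ 2 + w.im ^ 2)) with hQ
    have hQ0 : 0 ≤ Q := by
      apply mul_nonneg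
      · nlinarith only [hc, hc1]
      · linarith
    have hnw : w.re ^ 2 + w.im ^ 2 = ‖w‖ ^ 2 := by
      rw [← Complex.normSq_eq_norm_sq, Complex.normSq_apply]; ring
    have hQ1 : Q ≤ 2 * (1 - ‖w‖) := by
      rw [hQ, hnw]
      have h5 : 0 ≤ 1 - ‖w‖ ^ 2 := by nlinarith only [hw0, h1]
      have h6 : (1 - (2 * c) ^ 2) * (1 - ‖w‖ ^ 2) ≤ 1 * (1 - ‖w‖ ^ 2) :=
        mul_le_mul_of_nonneg_right (by nlinarith only [hc]) h5
      nlinarith only [h6, hw0, h1]
    have h5 : Real.log (S + Q) - Real.log S ≤ Q / S := by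
      rw [← Real.log_div (by positivity) hpos.ne']
      refine (Real.log_le_sub_one_of_pos (by positivity)).trans ?_
      apply le_of_eq
      field_simp
      ring
    have h6 : Q / S ≤ 2 * (1 - ‖w‖) / r ^ 2 := by
      rw [div_le_div_iff₀ hpos (by positivity)]
      have h7 : 0 ≤ 1 - ‖w‖ := by linarith
      have a1 : Q * r ^ 2 ≤ 2 * (1 - ‖w‖) * r ^ 2 := mul_le_mul_of_nonneg_right hQ1 (sq_nonneg r)
      have a2 : 2 * (1 - ‖w‖) * r ^ 2 ≤ 2 * (1 - ‖w‖) * S :=
        mul_le_mul_of_nonneg_left hge (by linarith)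
      linarith
    have h8 : 2 * (1 - ‖w‖) / r ^ 2 = 2 * ((1 - ‖w‖) / r ^ 2) := by ring
    linarith
  have s1 := mul_le_mul_of_nonneg_left t1 hN0
  have s2 := mul_le_mul_of_nonneg_left t2 hW1
  have s3 := mul_le_mul_of_nonneg_left t3 hW2
  have h7 : 0 ≤ 1 - ‖w‖ := by linarith
  have s4 : W2 * ((1 - ‖w‖) / r ^ 2) ≤ N * (1 - ‖w‖) := by
    have : (1 - ‖w‖) / r ^ 2 = (1 / r ^ 2) * (1 - ‖w‖) := by ring
    rw [this]
    have a1 : (1 / r ^ 2) * (1 - ‖w‖) ≤ N * (1 - ‖w‖) := mul_le_mul_of_nonneg_right hN h7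
    have a2 : 0 ≤ (1 / r ^ 2) * (1 - ‖w‖) := by positivity
    calc W2 * ((1 / r ^ 2) * (1 - ‖w‖)) ≤ 1 * ((1 / r ^ 2) * (1 - ‖w‖)) :=
          mul_le_mul_of_nonneg_right hW2' a2
      _ ≤ N * (1 - ‖w‖) := by linarith
  rw [mul_zero] at s2
  nlinarith only [s1, s2, s3, s4]

theorem log_prod (z : ℂ) (s : Multiset ℂ) : (∀ w ∈ s, z ≠ w) →
    Real.log ‖(s.map (fun w => z - w)).prod‖ = (s.map (fun w => Real.log ‖z - w‖)).sum ∧
    (s.map (fun w => z - w)).prod ≠ 0 := by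
  induction s using Multiset.induction with
  | empty => intro _; simp
  | cons w s ih =>
    intro h
    have h1 := ih (fun v hv => h v (Multiset.mem_cons_of_mem hv))
    have h2 : z - w ≠ 0 := sub_ne_zero.mpr (h w (Multiset.mem_cons_self w s))
    rw [Multiset.map_cons, Multiset.prod_cons, Multiset.map_cons, Multiset.sum_cons]
    refine ⟨?_, mul_ne_zero h2 h1.2⟩
    rw [norm_mul, Real.log_mul (norm_ne_zero_iff.mpr h2) (norm_ne_zero_iff.mpr h1.2), h1.1]

theorem log_eval (Q : ℂ[X]) (z : ℂ) (hz : Q.eval z ≠ 0) :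
    Real.log ‖Q.eval z‖ = Real.log ‖Q.leadingCoeff‖ +
      (Q.roots.map (fun w => Real.log ‖z - w‖)).sum := by
  have hQ : Q ≠ 0 := by
    rintro rfl
    simp at hz
  have h1 := (IsAlgClosed.splits Q).eval_eq_prod_roots z
  have h2 : ∀ w ∈ Q.roots, z ≠ w := by
    rintro w hw rfl
    exact hz ((mem_roots hQ).mp hw)
  have h3 := log_prod z Q.roots h2
  rw [h1, norm_mul, Real.log_mul (norm_ne_zero_iff.mpr (leadingCoeff_ne_zero.mpr hQ))
    (norm_ne_zero_iff.mpr h3.2), h3.1]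

theorem sum_scaled (c : ℝ) (hc : 0 < c) (s : Multiset ℂ) (h : ∀ w ∈ s, ((1 / c : ℝ) : ℂ) ≠ w) :
    (s.map (fun w => Real.log ‖1 - (c : ℂ) * w‖)).sum =
    (s.map (fun w => Real.log ‖((1 / c : ℝ) : ℂ) - w‖)).sum + Multiset.card s * Real.log c := by
  induction s using Multiset.induction with
  | empty => simp
  | cons w s ih =>
    rw [Multiset.map_cons, Multiset.sum_cons, Multiset.map_cons, Multiset.sum_cons,
      ih (fun v hv => h v (Multiset.mem_cons_of_mem hv)), Multiset.card_cons]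
    have h2 : ((1 / c : ℝ) : ℂ) - w ≠ 0 := sub_ne_zero.mpr (h w (Multiset.mem_cons_self w s))
    have e : (1 - (c : ℂ) * w) = (c : ℂ) * (((1 / c : ℝ) : ℂ) - w) := by
      push_cast
      have : (c : ℂ) ≠ 0 := by exact_mod_cast hc.ne'
      field_simp
    rw [e, norm_mul, Real.log_mul _ (norm_ne_zero_iff.mpr h2), Complex.norm_real,
      Real.norm_eq_abs, abs_of_pos hc]
    · push_cast; ring
    · rw [Complex.norm_real, Real.norm_eq_abs, abs_of_pos hc]; exact hc.ne'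

/-- exterior estimates -/
theorem ext_bounds (P : ℂ[X]) (hP : P ≠ 0) (hz : ∀ z, P.eval z = 0 → ‖z‖ ≤ 1) (x : ℝ) (hx : 1 < x) :
    P.natDegree * ‖P.eval (x : ℂ)‖ ≤ (x + 1) * ‖(derivative P).eval (x : ℂ)‖ ∧
    (x - 1) * ‖(derivative P).eval (x : ℂ)‖ ≤ P.natDegree * ‖P.eval (x : ℂ)‖ := by
  have hne : P.eval (x : ℂ) ≠ 0 := by
    intro h
    have := hz _ h
    rw [Complex.norm_real, Real.norm_eq_abs, abs_of_pos (by linarith)] at this
    linarith
  have hpos : 0 < ‖P.eval (x : ℂ)‖ := norm_pos_iff.mpr hne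
  have hsum := (IsAlgClosed.splits P).eval_derivative_div_eval_of_ne_zero hne
  have hcard : Multiset.card P.roots = P.natDegree := IsAlgClosed.card_roots_eq_natDegree
  have hre : ∀ w ∈ P.roots, 1 / (x + 1) ≤ (1 / ((x : ℂ) - w)).re := by
    intro w hw
    have hw1 : ‖w‖ ≤ 1 := hz w ((mem_roots hP).mp hw)
    have hq : w.re ^ 2 + w.im ^ 2 ≤ 1 := by
      have : ‖w‖ ^ 2 ≤ 1 := by nlinarith [norm_nonneg w]
      rw [← Complex.normSq_eq_norm_sq, Complex.normSq_apply] at this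
      nlinarith only [this]
    have hre1 : -1 ≤ w.re := by nlinarith only [hq, sq_nonneg w.im]
    have hre2 : w.re ≤ 1 := by nlinarith only [hq, sq_nonneg w.im]
    rw [one_div ((x : ℂ) - w), Complex.inv_re]
    have hnpos : 0 < Complex.normSq ((x : ℂ) - w) := by
      rw [Complex.normSq_pos]
      intro h
      have : w = x := by linear_combination -h
      rw [this] at hw1
      rw [Complex.norm_real, Real.norm_eq_abs, abs_of_pos (by linarith)] at hw1
      linarith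
    rw [div_le_div_iff₀ (by linarith) hnpos, Complex.normSq_apply]
    simp only [Complex.sub_re, Complex.sub_im, Complex.ofReal_re, Complex.ofReal_im]
    nlinarith only [hq, hre1, hre2, hx, mul_nonneg (sub_nonneg.mpr hx.le) (show 0 ≤ 1 + w.re by linarith)]
  have hnorm : ∀ w ∈ P.roots, ‖1 / ((x : ℂ) - w)‖ ≤ 1 / (x - 1) := by
    intro w hw
    have hw1 : ‖w‖ ≤ 1 := hz w ((mem_roots hP).mp hw)
    rw [norm_div, norm_one]
    apply one_div_le_one_div_of_le (by linarith)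
    have := norm_sub_norm_le (x : ℂ) w
    rw [Complex.norm_real, Real.norm_eq_abs, abs_of_pos (by linarith)] at this
    linarith
  constructor
  · have h1 : (P.natDegree : ℝ) * (1 / (x + 1)) ≤
        ((derivative P).eval (x : ℂ) / P.eval (x : ℂ)).re := by
      rw [hsum, ← hcard]
      have e : ((P.roots.map fun z ↦ 1 / ((x : ℂ) - z)).sum).re =
          (P.roots.map fun z ↦ (1 / ((x : ℂ) - z)).re).sum := by
        have := map_multiset_sum Complex.reAddGroupHom (P.roots.map fun z ↦ 1 / ((x : ℂ) - z))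
        rw [Multiset.map_map] at this
        exact this
      rw [e, ← nsmul_eq_mul, ← Multiset.card_map (fun z ↦ (1 / ((x : ℂ) - z)).re) P.roots]
      apply Multiset.card_nsmul_le_sum
      intro y hy
      obtain ⟨w, hw, rfl⟩ := Multiset.mem_map.mp hy
      exact hre w hw
    have h2 := h1.trans (Complex.re_le_norm _)
    rw [norm_div, le_div_iff₀ hpos] at h2
    have hx1 : 0 < x + 1 := by linarith
    have h3 : (P.natDegree : ℝ) * (1 / (x + 1)) * ‖P.eval (x : ℂ)‖ =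
      (P.natDegree * ‖P.eval (x : ℂ)‖) / (x + 1) := by ring
    rw [h3, div_le_iff₀ hx1] at h2
    linarith
  · have h1 : ‖(derivative P).eval (x : ℂ) / P.eval (x : ℂ)‖ ≤ P.natDegree * (1 / (x - 1)) := by
      rw [hsum, ← hcard]
      refine (norm_multiset_sum_le _).trans ?_
      rw [Multiset.map_map, ← nsmul_eq_mul,
        ← Multiset.card_map ((fun a => ‖a‖) ∘ fun z ↦ 1 / ((x : ℂ) - z)) P.roots]
      apply Multiset.sum_le_card_nsmul
      intro y hy
      obtain ⟨w, hw, rfl⟩ := Multiset.mem_map.mp hy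
      exact hnorm w hw
    rw [norm_div, div_le_iff₀ hpos] at h1
    have hx1 : 0 < x - 1 := by linarith
    have h3 : (P.natDegree : ℝ) * (1 / (x - 1)) * ‖P.eval (x : ℂ)‖ =
      (P.natDegree * ‖P.eval (x : ℂ)‖) / (x - 1) := by ring
    rw [h3, le_div_iff₀ hx1] at h1
    linarith

/-- critical points in the disc -/
theorem gauss_lucas (P : ℂ[X]) (hd : 1 ≤ P.natDegree) (hz : ∀ z, P.eval z = 0 → ‖z‖ ≤ 1) (ζ : ℂ)
    (hζ : (derivative P).eval ζ = 0) (hder : derivative P ≠ 0) : ‖ζ‖ ≤ 1 := by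
  have hP0 : P ≠ 0 := by
    rintro rfl
    simp at hd
  have hdeg : 0 < P.degree := by
    rw [← natDegree_pos_iff_degree_pos]
    omega
  have h1 := rootSet_derivative_subset_convexHull_rootSet hdeg
  have h2 : ζ ∈ (derivative P).rootSet ℂ := by
    rw [mem_rootSet]
    exact ⟨hder, by simpa using hζ⟩
  have h3 : P.rootSet ℂ ⊆ Metric.closedBall 0 1 := by
    intro z hz'
    rw [mem_rootSet] at hz'
    rw [mem_closedBall_zero_iff]
    exact hz z (by simpa using hz'.2)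
  have h4 := convexHull_min h3 (convex_closedBall 0 1)
  have h5 := h4 (h1 h2)
  rwa [mem_closedBall_zero_iff] at h5

/-- upper bound at a point of the segment -/
theorem upper_bound (P : ℂ[X]) (a x : ℝ) (hxa : x ≤ a) (hx : 0 ≤ x) (ha1 : a < 1)
    (hP : P.eval (a : ℂ) = 0)
    (hcrit : ∀ ζ ∈ (derivative P).roots, ∀ t : ℝ, x ≤ t → t ≤ a → ‖(t : ℂ) - ζ‖ ≤ ‖(a : ℂ) - ζ‖) :
    ‖P.eval (x : ℂ)‖ ≤ ‖(derivative P).eval (a : ℂ)‖ := by
  have hb : ∀ z ∈ segment ℝ (x : ℂ) (a : ℂ), ‖(derivative P).eval z‖ ≤ ‖(derivative P).eval (a : ℂ)‖ := by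
    intro z hz
    obtain ⟨t, ht1, ht2, rfl⟩ : ∃ t : ℝ, x ≤ t ∧ t ≤ a ∧ z = (t : ℂ) := by
      obtain ⟨p, q, hp, hq, hpq, rfl⟩ := hz
      refine ⟨p * x + q * a, ?_, ?_, ?_⟩
      · have : q = 1 - p := by linarith
        subst this
        nlinarith
      · have : q = 1 - p := by linarith
        subst this
        nlinarith
      · simp
    rw [(IsAlgClosed.splits (derivative P)).eval_eq_prod_roots,
      (IsAlgClosed.splits (derivative P)).eval_eq_prod_roots, norm_mul, norm_mul]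
    apply mul_le_mul_of_nonneg_left _ (norm_nonneg _)
    have e : ∀ y : ℂ, ‖((derivative P).roots.map (fun w => y - w)).prod‖ =
        ((derivative P).roots.map (fun w => ‖y - w‖)).prod := by
      intro y
      rw [← coe_nnnorm]
      have := map_multiset_prod (nnnormHom : ℂ →*₀ NNReal) ((derivative P).roots.map (fun w => y - w))
      simp only [nnnormHom_apply] at this
      rw [this, Multiset.map_map, NNReal.coe_multiset_prod, Multiset.map_map]
      rfl
    rw [e, e]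
    apply Multiset.prod_map_le_prod_map₀
    · intro i _; exact norm_nonneg _
    · intro i hi
      exact hcrit i hi t ht1 ht2
  have h := (convex_segment (𝕜 := ℝ) (x : ℂ) (a : ℂ)).norm_image_sub_le_of_norm_hasDerivWithin_le
    (f := fun z => P.eval z) (f' := fun z => (derivative P).eval z)
    (fun z _ => (P.hasDerivAt z).hasDerivWithinAt) hb (right_mem_segment ℝ _ _)
    (left_mem_segment ℝ _ _)
  rw [hP, sub_zero] at h
  refine h.trans ?_
  have : ‖(x : ℂ) - a‖ ≤ 1 := by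
    rw [← Complex.ofReal_sub, Complex.norm_real, Real.norm_eq_abs, abs_le]
    constructor <;> linarith
  calc ‖(derivative P).eval (a : ℂ)‖ * ‖(x : ℂ) - a‖ ≤ ‖(derivative P).eval (a : ℂ)‖ * 1 :=
        mul_le_mul_of_nonneg_left this (norm_nonneg _)
    _ = _ := mul_one _

theorem no_zero_near (a c : ℝ) (ha : 0 < a) (ha1 : a < 1) (hc : 0 < c) (hc1 : c ≤ 1 / 16)
    (hca : c ≤ a / 4) (P : ℂ[X]) (hdeg : 1 ≤ P.natDegree) (hPa : P.eval (a : ℂ) = 0)
    (hQa : (derivative P).eval (a : ℂ) ≠ 0)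
    (hgeo : ∀ ζ, (derivative P).eval ζ = 0 →
      ‖((2 * c : ℝ) : ℂ) - ζ‖ ≤ (1 - a * (2 * c) / 32) * ‖(a : ℂ) - ζ‖)
    (hζa : ∀ ζ, (derivative P).eval ζ = 0 → 3 / 4 ≤ ‖(a : ℂ) - ζ‖) (w : ℂ)
    (hcon : ‖((2 * c : ℝ) : ℂ) - w‖ < a * c / 64) : P.eval w ≠ 0 := by
  intro hw0
  have hac : a * c ≤ 1 / 16 := by nlinarith only [ha, ha1, hc, hc1]
  have hac0 : 0 < a * c := mul_pos ha hc
  have hwa : (a : ℂ) ≠ w := by
    rintro rfl
    rw [← Complex.ofReal_sub, Complex.norm_real, Real.norm_eq_abs] at hcon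
    have h1 := neg_abs_le (2 * c - a)
    have h2 : a * c ≤ a := by nlinarith only [ha, hc1, hc]
    linarith only [h1, h2, hcon, hca, ha]
  have h1 := lower_bound P a w (1 - a * c / 32) (by linarith only [hac])
    (by linarith only [hac0]) hwa hPa hdeg
    (by
      intro ζ hζ
      have h2 := hgeo ζ hζ
      have h3 := hζa ζ hζ
      have h4 : ‖w - ζ‖ ≤ ‖((2 * c : ℝ) : ℂ) - w‖ + ‖((2 * c : ℝ) : ℂ) - ζ‖ := by
        have : w - ζ = -(((2 * c : ℝ) : ℂ) - w) + (((2 * c : ℝ) : ℂ) - ζ) := by ring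
        rw [this]
        refine (norm_add_le _ _).trans ?_
        rw [norm_neg]
      have h5 : a * c * (3 / 4) ≤ a * c * ‖(a : ℂ) - ζ‖ := mul_le_mul_of_nonneg_left h3 hac0.le
      linarith only [h2, h4, h5, hcon, hac0])
  rw [hw0, norm_zero] at h1
  have h2 : (1 - a * c / 32) ^ P.natDegree < 1 :=
    pow_lt_one₀ (by linarith only [hac]) (by linarith only [hac0]) (by omega)
  have h3 : 0 < ‖(a : ℂ) - w‖ := norm_pos_iff.mpr (sub_ne_zero.mpr hwa)
  have h4 : 0 < ‖(derivative P).eval (a : ℂ)‖ := norm_pos_iff.mpr hQa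
  have h5 : 0 < 1 - (1 - a * c / 32) ^ P.natDegree := by linarith only [h2]
  have hn0 : (0 : ℝ) < P.natDegree := by exact_mod_cast hdeg
  have h6 : 0 < ‖(a : ℂ) - w‖ * ‖(derivative P).eval (a : ℂ)‖ *
    (1 - (1 - a * c / 32) ^ P.natDegree) / (2 * P.natDegree) := by positivity
  linarith only [h1, h6]

set_option maxHeartbeats 4000000 in
theorem finite_n (a c c0 N ε : ℝ) (ha : 0 < a) (ha1 : a < 1) (hc : 0 < c) (hc1 : c ≤ 1 / 16)
    (hca : c ≤ a / 4)
    (hcb : 22 * c ≤ (1 - a) ^ 2 / 2) (hN : 1 / (a * c / 64) ^ 2 + 8 ≤ N)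
    (hc0 : 0 < c0) (hc0c : c0 ≤ c)
    (hε : 0 ≤ ε) (hε1 : ε ≤ a * c0 / 4)
    (hε2 : ε * (2 * (N + 2) + 2 * c ^ 2) ≤ c ^ 2 * (1 - a) ^ 2 / 4)
    (P : ℂ[X]) (hmonic : P.Monic) (hdeg : 1 ≤ P.natDegree) (hPa : P.eval (a : ℂ) = 0)
    (hz : ∀ z, P.eval z = 0 → ‖z‖ ≤ 1)
    (hcrit : ∀ ζ, (derivative P).eval ζ = 0 → 1 - ε ≤ ‖ζ - a‖)
    (hθ : (1 - a * c0 / 32) ^ P.natDegree ≤ 1 / 2) :
    (P.natDegree - 1) * (c ^ 2 * (1 - a) ^ 2 / 4) +
      ((N + (2 - 4 * (1 - a) * c)) * Real.log (a / 8) - (2 - 4 * (1 - a) * c) * Real.log (1 + c) +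
        (1 - (1 - a) * c) * Real.log (1 - 2 * c)) - (1 - (1 - a) * c) * Real.log P.natDegree ≤
      P.natDegree * (N * c0) := by
  set n := P.natDegree with hn
  have hn0 : (0 : ℝ) < n := by exact_mod_cast hdeg
  have hP0 : P ≠ 0 := hmonic.ne_zero
  set Q := derivative P with hQ
  have hQdeg : Q.natDegree = n - 1 := natDegree_derivative P
  have hQlc : Q.leadingCoeff = n := by
    rw [leadingCoeff, hQdeg, hQ, coeff_derivative]
    have : n - 1 + 1 = n := by omega
    rw [this, hmonic.coeff_natDegree]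
    have h2 : ((n - 1 : ℕ) : ℂ) + 1 = n := by exact_mod_cast this
    rw [h2, one_mul]
  have hQ0 : Q ≠ 0 := by
    intro h
    rw [h, leadingCoeff_zero] at hQlc
    have : (n : ℝ) = 0 := by exact_mod_cast hQlc.symm
    linarith
  have hac0 : a * c0 ≤ 1 / 16 := by nlinarith
  have hac : a * c ≤ 1 / 16 := by nlinarith
  have hε3 : ε ≤ 1 / 4 := by linarith
  have hζ1 : ∀ ζ, Q.eval ζ = 0 → ‖ζ‖ ≤ 1 := fun ζ hζ => gauss_lucas P hdeg hz ζ hζ hQ0
  have hζr : ∀ ζ ∈ Q.roots, Q.eval ζ = 0 := fun ζ hζ => (mem_roots hQ0).mp hζ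
  have hζa : ∀ ζ, Q.eval ζ = 0 → 3 / 4 ≤ ‖(a : ℂ) - ζ‖ := by
    intro ζ hζ
    have := hcrit ζ hζ
    rw [norm_sub_rev] at this
    linarith
  have hQa : Q.eval (a : ℂ) ≠ 0 := by
    intro h
    have := hζa _ h
    rw [sub_self, norm_zero] at this
    linarith
  -- general lower bound at real points
  have hgeo : ∀ x : ℝ, c0 ≤ x → x ≤ a / 2 → ∀ ζ, Q.eval ζ = 0 →
      ‖(x : ℂ) - ζ‖ ≤ (1 - a * x / 32) * ‖(a : ℂ) - ζ‖ := by
    intro x hx1 hx2 ζ hζ
    apply geoB a x ε ha ha1 (by linarith) hx2 hε _ ζ (hζ1 ζ hζ) (hcrit ζ hζ)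
    nlinarith
  have hLB : ∀ x : ℝ, c0 ≤ x → x ≤ a / 2 → P.eval (x : ℂ) ≠ 0 ∧
      Real.log (a / 8) + (Q.roots.map (fun w => Real.log ‖(a : ℂ) - w‖)).sum ≤
        Real.log ‖P.eval (x : ℂ)‖ := by
    intro x hx1 hx2
    have hx0 : 0 < x := by linarith only [hc0, hx1]
    have hax : 0 < a * x := mul_pos ha hx0
    have hax1 : a * x ≤ 1 := by nlinarith only [hx0, hx2, ha, ha1]
    have hθ0 : 0 ≤ 1 - a * x / 32 := by linarith
    have hne : (a : ℂ) ≠ (x : ℂ) := by
      intro h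
      have : a = x := by exact_mod_cast h
      linarith
    have h1 := lower_bound P a x (1 - a * x / 32) hθ0 (by linarith) hne hPa hdeg
      (fun ζ hζ => hgeo x hx1 hx2 ζ hζ)
    have h2 : (1 - a * x / 32) ^ n ≤ 1 / 2 := by
      have hle : 1 - a * x / 32 ≤ 1 - a * c0 / 32 := by
        have := mul_le_mul_of_nonneg_left hx1 ha.le
        linarith only [this]
      exact (pow_le_pow_left₀ hθ0 hle n).trans hθ
    have h3 : ‖(a : ℂ) - (x : ℂ)‖ = a - x := by
      rw [← Complex.ofReal_sub, Complex.norm_real, Real.norm_eq_abs, abs_of_pos (by linarith)]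
    rw [h3, ← hn, ← hQ] at h1
    have hQapos : 0 < ‖Q.eval (a : ℂ)‖ := norm_pos_iff.mpr hQa
    have h4 : a / 8 * (‖Q.eval (a : ℂ)‖ / n) ≤ ‖P.eval (x : ℂ)‖ := by
      refine le_trans ?_ h1
      have e : (a - x) * ‖Q.eval (a : ℂ)‖ * (1 - (1 - a * x / 32) ^ n) / (2 * n) =
        ((a - x) * (1 - (1 - a * x / 32) ^ n) / 2) * (‖Q.eval (a : ℂ)‖ / n) := by
        field_simp
      rw [e]
      apply mul_le_mul_of_nonneg_right _ (by positivity)
      have : a / 2 * (1 / 2) ≤ (a - x) * (1 - (1 - a * x / 32) ^ n) :=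
        mul_le_mul (by linarith) (by linarith) (by norm_num) (by linarith)
      linarith
    have h5 : 0 < a / 8 * (‖Q.eval (a : ℂ)‖ / n) := by positivity
    refine ⟨norm_pos_iff.mp (lt_of_lt_of_le h5 h4), ?_⟩
    have h6 := Real.log_le_log h5 h4
    rw [Real.log_mul (by positivity) (by positivity), Real.log_div hQapos.ne' hn0.ne',
      log_eval Q _ hQa, hQlc, Complex.norm_natCast] at h6
    linarith
  set H := (Q.roots.map (fun w => Real.log ‖(a : ℂ) - w‖)).sum with hH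
  obtain ⟨hc0ne, hc0log⟩ := hLB c0 le_rfl (by linarith)
  obtain ⟨hcne, hclog⟩ := hLB c hc0c (by linarith)
  obtain ⟨h2cne, _⟩ := hLB (2 * c) (by linarith) (by linarith)
  -- upper bound
  have hUB : Real.log ‖P.eval ((2 * c : ℝ) : ℂ)‖ ≤ Real.log n + H := by
    have h1 := upper_bound P a (2 * c) (by linarith) (by linarith) ha1 hPa
      (by
        intro ζ hζ t ht1 ht2
        have h2 := geo a t ε ha ht2 hε (by linarith) ζ (hζ1 ζ (hζr ζ hζ)) (hcrit ζ (hζr ζ hζ))
        apply le_of_sq_le_sq _ (norm_nonneg _)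
        refine h2.trans ?_
        have h3 : 2 * ε / a ≤ t := by
          rw [div_le_iff₀ ha]
          nlinarith
        have : 0 ≤ (a - t) * (t - 2 * ε / a) := mul_nonneg (by linarith) (by linarith)
        linarith)
    have h2 := Real.log_le_log (norm_pos_iff.mpr h2cne) h1
    rw [← hQ, log_eval Q _ hQa, hQlc, Complex.norm_natCast] at h2
    exact h2
  -- exterior
  have hext : ∀ x : ℝ, 1 < x → P.eval (x : ℂ) ≠ 0 ∧ Q.eval (x : ℂ) ≠ 0 := by
    intro x hx
    constructor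
    · intro h
      have := hz _ h
      rw [Complex.norm_real, Real.norm_eq_abs, abs_of_pos (by linarith)] at this
      linarith
    · intro h
      have := hζ1 _ h
      rw [Complex.norm_real, Real.norm_eq_abs, abs_of_pos (by linarith)] at this
      linarith
  have hroot_ne : ∀ x : ℝ, 1 < x → ∀ w ∈ P.roots, (x : ℂ) ≠ w := by
    rintro x hx w hw rfl
    exact (hext x hx).1 ((mem_roots hP0).mp hw)
  have hcroot_ne : ∀ x : ℝ, 1 < x → ∀ w ∈ Q.roots, (x : ℂ) ≠ w := by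
    rintro x hx w hw rfl
    exact (hext x hx).2 ((mem_roots hQ0).mp hw)
  have hcardP : Multiset.card P.roots = n := IsAlgClosed.card_roots_eq_natDegree
  have hcardQ : (Multiset.card Q.roots : ℝ) = n - 1 := by
    rw [IsAlgClosed.card_roots_eq_natDegree, hQdeg, Nat.cast_sub hdeg, Nat.cast_one]
  have hx1 : 1 < 1 / c := by
    rw [lt_div_iff₀ hc]; linarith
  have hx2 : 1 < 1 / (2 * c) := by
    rw [lt_div_iff₀ (by linarith)]; linarith
  have hE1 : (P.roots.map (fun w => Real.log ‖1 - (c : ℂ) * w‖)).sum ≤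
      Real.log (1 + c) + (Q.roots.map (fun w => Real.log ‖1 - (c : ℂ) * w‖)).sum := by
    rw [sum_scaled c hc P.roots (hroot_ne _ hx1), sum_scaled c hc Q.roots (hcroot_ne _ hx1),
      hcardP, hcardQ]
    obtain ⟨hp, hq⟩ := hext _ hx1
    have h1 := (ext_bounds P hP0 hz (1 / c) hx1).1
    rw [← hn, ← hQ] at h1
    have h2 := Real.log_le_log (by have := norm_pos_iff.mpr hp; positivity) h1
    rw [Real.log_mul hn0.ne' (norm_ne_zero_iff.mpr hp),
      Real.log_mul (by positivity) (norm_ne_zero_iff.mpr hq), log_eval P _ hp, log_eval Q _ hq,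
      hQlc, Complex.norm_natCast, hmonic.leadingCoeff, norm_one, Real.log_one, zero_add] at h2
    have e : Real.log (1 / c + 1) = Real.log (1 + c) - Real.log c := by
      rw [← Real.log_div (by positivity) (by positivity)]
      congr 1
      field_simp
    rw [e] at h2
    linarith
  have hE2 : Real.log (1 - 2 * c) +
      (Q.roots.map (fun w => Real.log ‖1 - ((2 * c : ℝ) : ℂ) * w‖)).sum ≤
      (P.roots.map (fun w => Real.log ‖1 - ((2 * c : ℝ) : ℂ) * w‖)).sum := by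
    rw [sum_scaled (2 * c) (by linarith) P.roots (hroot_ne _ hx2),
      sum_scaled (2 * c) (by linarith) Q.roots (hcroot_ne _ hx2), hcardP, hcardQ]
    obtain ⟨hp, hq⟩ := hext _ hx2
    have h1 := (ext_bounds P hP0 hz (1 / (2 * c)) hx2).2
    rw [← hn, ← hQ] at h1
    have h2 := Real.log_le_log (by
      have := norm_pos_iff.mpr hq
      have : 0 < 1 / (2 * c) - 1 := by linarith
      positivity) h1
    rw [Real.log_mul hn0.ne' (norm_ne_zero_iff.mpr hp),
      Real.log_mul (by linarith) (norm_ne_zero_iff.mpr hq), log_eval P _ hp, log_eval Q _ hq,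
      hQlc, Complex.norm_natCast, hmonic.leadingCoeff, norm_one, Real.log_one, zero_add] at h2
    have e : Real.log (1 / (2 * c) - 1) = Real.log (1 - 2 * c) - Real.log (2 * c) := by
      rw [← Real.log_div (by linarith) (by positivity)]
      congr 1
      field_simp
    rw [e] at h2
    linarith
  set W1 := 2 - 4 * (1 - a) * c with hW1
  set W2 := 1 - (1 - a) * c with hW2
  have hbc : 0 ≤ (1 - a) * c := mul_nonneg (by linarith) hc.le
  have hbc1 : (1 - a) * c ≤ 1 / 16 := by nlinarith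
  have hW1' : 0 ≤ W1 := by rw [hW1]; linarith
  have hW1'' : W1 ≤ 2 := by rw [hW1]; linarith
  have hW2' : 0 ≤ W2 := by rw [hW2]; linarith
  have hW2'' : W2 ≤ 1 := by rw [hW2]; linarith
  have hr : 0 < a * c / 64 := by positivity
  have hN0 : 0 ≤ N := le_trans (by positivity) hN
  -- sum of F
  have hFsum : (P.roots.map (fun w => N * Real.log ‖(c0 : ℂ) - w‖ +
      W1 * (Real.log ‖(c : ℂ) - w‖ - Real.log ‖1 - (c : ℂ) * w‖) -
      W2 * (Real.log ‖((2 * c : ℝ) : ℂ) - w‖ - Real.log ‖1 - ((2 * c : ℝ) : ℂ) * w‖))).sum ≤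
      n * (N * c0) := by
    rw [← hcardP, ← nsmul_eq_mul, ← Multiset.card_map (fun w => N * Real.log ‖(c0 : ℂ) - w‖ +
      W1 * (Real.log ‖(c : ℂ) - w‖ - Real.log ‖1 - (c : ℂ) * w‖) -
      W2 * (Real.log ‖((2 * c : ℝ) : ℂ) - w‖ - Real.log ‖1 - ((2 * c : ℝ) : ℂ) * w‖)) P.roots]
    apply Multiset.sum_le_card_nsmul
    intro y hy
    obtain ⟨w, hw, rfl⟩ := Multiset.mem_map.mp hy
    have hw0 : P.eval w = 0 := (mem_roots hP0).mp hw
    apply F_upper c0 c (a * c / 64) N W1 W2 hc0.le hc hc1 hr (by linarith) hW1' hW2' hW2'' w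
      (hz w hw0)
    · by_contra hcon
      push Not at hcon
      exact no_zero_near a c ha ha1 hc hc1 hca P hdeg hPa hQa
        (fun ζ hζ => hgeo (2 * c) (by linarith) (by linarith) ζ hζ) hζa w hcon hw0
    · rintro rfl
      exact hc0ne hw0
    · rintro rfl
      exact hcne hw0
  have hFeq : (P.roots.map (fun w => N * Real.log ‖(c0 : ℂ) - w‖ +
      W1 * (Real.log ‖(c : ℂ) - w‖ - Real.log ‖1 - (c : ℂ) * w‖) -
      W2 * (Real.log ‖((2 * c : ℝ) : ℂ) - w‖ - Real.log ‖1 - ((2 * c : ℝ) : ℂ) * w‖))).sum =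
      N * Real.log ‖P.eval (c0 : ℂ)‖ + W1 * (Real.log ‖P.eval (c : ℂ)‖ -
        (P.roots.map (fun w => Real.log ‖1 - (c : ℂ) * w‖)).sum) -
      W2 * (Real.log ‖P.eval ((2 * c : ℝ) : ℂ)‖ -
        (P.roots.map (fun w => Real.log ‖1 - ((2 * c : ℝ) : ℂ) * w‖)).sum) := by
    rw [log_eval P _ hc0ne, log_eval P _ hcne, log_eval P _ h2cne, hmonic.leadingCoeff, norm_one,
      Real.log_one, zero_add, zero_add, zero_add]
    rw [Multiset.sum_map_sub, Multiset.sum_map_add, Multiset.sum_map_mul_left,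
      Multiset.sum_map_mul_left, Multiset.sum_map_mul_left, Multiset.sum_map_sub,
      Multiset.sum_map_sub]
  -- sum of B
  have hBsum : (n - 1) * (c ^ 2 * (1 - a) ^ 2 / 4) ≤ (Q.roots.map (fun w =>
      (N + W1 - W2) * Real.log ‖(a : ℂ) - w‖ - W1 * Real.log ‖1 - (c : ℂ) * w‖ +
      W2 * Real.log ‖1 - ((2 * c : ℝ) : ℂ) * w‖)).sum := by
    rw [← hcardQ, ← nsmul_eq_mul, ← Multiset.card_map (fun w =>
      (N + W1 - W2) * Real.log ‖(a : ℂ) - w‖ - W1 * Real.log ‖1 - (c : ℂ) * w‖ +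
      W2 * Real.log ‖1 - ((2 * c : ℝ) : ℂ) * w‖) Q.roots]
    apply Multiset.card_nsmul_le_sum
    intro y hy
    obtain ⟨w, hw, rfl⟩ := Multiset.mem_map.mp hy
    have hw0 := hζr w hw
    have hcc : c ^ 2 ≤ 1 := by nlinarith
    have hNN : 8 ≤ N := by
      have : 0 ≤ 1 / (a * c / 64) ^ 2 := by positivity
      linarith
    apply B_lower a c (N + W1 - W2) ε ha ha1 hc hc1 hcb _ hε _ _ w (hζ1 w hw0) (hcrit w hw0)
    · rw [hW1, hW2]; nlinarith
    · nlinarith
    · refine le_trans ?_ hε2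
      apply mul_le_mul_of_nonneg_left _ hε
      linarith
  have hBeq : (Q.roots.map (fun w =>
      (N + W1 - W2) * Real.log ‖(a : ℂ) - w‖ - W1 * Real.log ‖1 - (c : ℂ) * w‖ +
      W2 * Real.log ‖1 - ((2 * c : ℝ) : ℂ) * w‖)).sum = (N + W1 - W2) * H -
      W1 * (Q.roots.map (fun w => Real.log ‖1 - (c : ℂ) * w‖)).sum +
      W2 * (Q.roots.map (fun w => Real.log ‖1 - ((2 * c : ℝ) : ℂ) * w‖)).sum := by
    rw [Multiset.sum_map_add, Multiset.sum_map_sub, Multiset.sum_map_mul_left,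
      Multiset.sum_map_mul_left, Multiset.sum_map_mul_left]
  rw [hFeq] at hFsum
  rw [hBeq] at hBsum
  have s1 := mul_le_mul_of_nonneg_left hc0log hN0
  have s2 := mul_le_mul_of_nonneg_left hclog hW1'
  have s3 := mul_le_mul_of_nonneg_left hE1 hW1'
  have s4 := mul_le_mul_of_nonneg_left hUB hW2'
  have s5 := mul_le_mul_of_nonneg_left hE2 hW2'
  linarith only [s1, s2, s3, s4, s5, hFsum, hBsum]

open Filter Topology in
theorem eventually_large (β K W c0N : ℝ) (hβ : 0 < β) (hW1 : W ≤ 1)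
    (hc : c0N ≤ β / 2) :
    ∀ᶠ n : ℕ in atTop, (n : ℝ) * c0N < (n - 1) * β + K - W * Real.log n := by
  have h1 : ∀ᶠ x : ℝ in atTop, ‖Real.log x‖ ≤ β / 4 * ‖x‖ :=
    Real.isLittleO_log_id_atTop.bound (by positivity)
  have h2 : ∀ᶠ x : ℝ in atTop, (4 / β) * (β - K) < x := eventually_gt_atTop _
  have h3 : ∀ᶠ n : ℕ in atTop, ‖Real.log (n : ℝ)‖ ≤ β / 4 * ‖(n : ℝ)‖ ∧
      (4 / β) * (β - K) < (n : ℝ) ∧ 1 ≤ n :=
    (tendsto_natCast_atTop_atTop.eventually h1).and
      ((tendsto_natCast_atTop_atTop.eventually h2).and (eventually_ge_atTop 1))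
  filter_upwards [h3] with n hn
  obtain ⟨hn1, hn2, hn3⟩ := hn
  have hnpos : (1 : ℝ) ≤ n := by exact_mod_cast hn3
  have hlog0 : 0 ≤ Real.log n := Real.log_nonneg hnpos
  rw [Real.norm_eq_abs, Real.norm_eq_abs, abs_of_nonneg hlog0, abs_of_nonneg (by linarith)] at hn1
  have h4 : β - K < β / 4 * n := by
    have : (4 / β) * (β - K) * (β / 4) < n * (β / 4) := mul_lt_mul_of_pos_right hn2 (by positivity)
    have e : (4 / β) * (β - K) * (β / 4) = β - K := by field_simp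
    linarith
  have h5 : W * Real.log n ≤ 1 * Real.log n := mul_le_mul_of_nonneg_right hW1 hlog0
  have h6 : (n : ℝ) * c0N ≤ n * (β / 2) := mul_le_mul_of_nonneg_left hc (by linarith)
  nlinarith only [h4, h5, h6, hn1]

open Filter Topology in
theorem exists_crit (a : ℝ) (ha : 0 < a) (ha1 : a < 1) : ∃ ε : ℝ, 0 < ε ∧ ε < 1 ∧
    ∀ᶠ n : ℕ in atTop, ∀ P : ℂ[X], P.natDegree = n → P.eval (a : ℂ) = 0 →
    (∀ z : ℂ, P.eval z = 0 → ‖z‖ ≤ 1) → ∃ ζ : ℂ, (derivative P).eval ζ = 0 ∧ ‖ζ - a‖ < 1 - ε := by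
  have hb : 0 < 1 - a := by linarith
  obtain ⟨c, hc, hca, hc1, hcb⟩ : ∃ c : ℝ, 0 < c ∧ c ≤ a / 4 ∧ c ≤ 1 / 16 ∧
      22 * c ≤ (1 - a) ^ 2 / 2 := by
    refine ⟨min (min (a / 4) (1 / 16)) ((1 - a) ^ 2 / 44), ?_, ?_, ?_, ?_⟩
    · apply lt_min (lt_min (by positivity) (by norm_num)) (by positivity)
    · exact (min_le_left _ _).trans (min_le_left _ _)
    · exact (min_le_left _ _).trans (min_le_right _ _)
    · have := min_le_right (min (a / 4) (1 / 16)) ((1 - a) ^ 2 / 44)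
      linarith
  obtain ⟨N, hN⟩ : ∃ N : ℝ, N = 1 / (a * c / 64) ^ 2 + 8 := ⟨_, rfl⟩
  have hN8 : 8 ≤ N := by
    rw [hN]
    have : 0 ≤ 1 / (a * c / 64) ^ 2 := by positivity
    linarith
  obtain ⟨β, hβ⟩ : ∃ β : ℝ, β = c ^ 2 * (1 - a) ^ 2 / 4 := ⟨_, rfl⟩
  have hβ0 : 0 < β := by rw [hβ]; positivity
  obtain ⟨c0, hc0, hc0c, hc0N⟩ : ∃ c0 : ℝ, 0 < c0 ∧ c0 ≤ c ∧ N * c0 ≤ β / 2 := by
    refine ⟨min c (β / (2 * N)), lt_min hc (by positivity), min_le_left _ _, ?_⟩
    have h1 := mul_le_mul_of_nonneg_left (min_le_right c (β / (2 * N))) (show 0 ≤ N by linarith)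
    have e : N * (β / (2 * N)) = β / 2 := by field_simp
    linarith
  obtain ⟨ε, hε0, hε1, hε2⟩ : ∃ ε : ℝ, 0 < ε ∧ ε ≤ a * c0 / 4 ∧
      ε * (2 * (N + 2) + 2 * c ^ 2) ≤ β := by
    have hden : 0 < 2 * (N + 2) + 2 * c ^ 2 := by positivity
    refine ⟨min (a * c0 / 4) (β / (2 * (N + 2) + 2 * c ^ 2)), lt_min (by positivity)
      (by positivity), min_le_left _ _, ?_⟩
    rw [← le_div_iff₀ hden]
    exact min_le_right _ _
  have hε3 : ε < 1 := by nlinarith
  refine ⟨ε, hε0, hε3, ?_⟩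
  have hθ1 : 1 - a * c0 / 32 < 1 := by
    have : 0 < a * c0 := by positivity
    linarith
  have hθ0 : 0 ≤ 1 - a * c0 / 32 := by nlinarith
  have hpow : ∀ᶠ n : ℕ in atTop, (1 - a * c0 / 32) ^ n < 1 / 2 :=
    (tendsto_pow_atTop_nhds_zero_of_lt_one hθ0 hθ1).eventually (gt_mem_nhds (by norm_num))
  have hbc : 0 ≤ (1 - a) * c := by positivity
  have hlarge := eventually_large β ((N + (2 - 4 * (1 - a) * c)) * Real.log (a / 8) -
    (2 - 4 * (1 - a) * c) * Real.log (1 + c) +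
        (1 - (1 - a) * c) * Real.log (1 - 2 * c)) (1 - (1 - a) * c) (N * c0) hβ0
        (by linarith) hc0N
  filter_upwards [hpow, hlarge, eventually_ge_atTop 1] with n h1 h2 h3 P hdeg hPa hz
  by_contra hcon
  push Not at hcon
  -- pass to the monic polynomial
  have hP0 : P ≠ 0 := by
    rintro rfl
    simp at hdeg
    omega
  have hlc : P.leadingCoeff⁻¹ ≠ 0 := inv_ne_zero (leadingCoeff_ne_zero.mpr hP0)
  have hmonic : (C P.leadingCoeff⁻¹ * P).Monic := by
    rw [mul_comm]; exact monic_mul_leadingCoeff_inv hP0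
  have hdeg' : (C P.leadingCoeff⁻¹ * P).natDegree = n := by
    rw [natDegree_C_mul hlc, hdeg]
  have hfin := finite_n a c c0 N ε ha ha1 hc hc1 hca hcb hN.ge hc0 hc0c hε0.le hε1
    (by rw [← hβ]; exact hε2) (C P.leadingCoeff⁻¹ * P) hmonic (by rw [hdeg']; exact h3)
    (by rw [eval_mul, hPa, mul_zero])
    (by
      intro z hz'
      apply hz z
      rw [eval_mul, eval_C] at hz'
      exact (mul_eq_zero.mp hz').resolve_left hlc)
    (by
      intro ζ hζ
      apply hcon ζ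
      rw [derivative_C_mul, eval_mul, eval_C] at hζ
      exact (mul_eq_zero.mp hζ).resolve_left hlc)
    (by rw [hdeg']; exact h1.le)
  rw [hdeg', ← hβ] at hfin
  linarith

/-- For every `a` in `(0,1)` there is `ε > 0` with `δ_n(a) ≤ 1 - ε` for all large `n`;
so `δ_n(a)` tends to `1` for no `a` in `(0,1)`. -/
theorem main : ∀ a : ℝ, 0 < a → a < 1 →
    ∃ ε : ℝ, 0 < ε ∧ ∃ N : ℕ, ∀ n ≥ N, delta n a ≤ 1 - ε := by
  intro a ha ha1
  obtain ⟨ε, h0, h1, hev⟩ := exists_crit a ha ha1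
  obtain ⟨N, hN⟩ := Filter.eventually_atTop.mp hev
  refine ⟨ε, h0, N, ?_⟩
  intro n hnN
  have hn := hN n hnN
  apply Real.sSup_le
  · rintro d ⟨P, hdeg, hPa, hz, rfl⟩
    obtain ⟨ζ, hζ, hζa⟩ := hn P hdeg hPa hz
    refine le_trans (csInf_le ?_ ⟨ζ, hζ, rfl⟩) hζa.le
    refine ⟨0, ?_⟩
    rintro _ ⟨w, _, rfl⟩
    exact norm_nonneg _
  · linarith

end Pool.Agent.Lib.MP_8e1908_an
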